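import Mathlib

/-! Analytic lemmas on infinite products and power series. -/

open Filter Topology

namespace Pool.Agent.Q290.Late

lemma factor_ne_zero {c : ℕ → ℂ} {L : ℂ}
    (h : Tendsto (fun K => ∏ k ∈ Finset.range K, c k) atTop (𝓝 L)) (hL : L ≠ 0) :
    (∀ k, c k ≠ 0) ∧ Tendsto c atTop (𝓝 1) := by
  have h1 : ∀ k, c k ≠ 0 := by
    intro k hk
    apply hL
    refine tendsto_nhds_unique h ?_
    apply tendsto_const_nhds.congr'
    filter_upwards [eventually_gt_atTop k] with K hK
    exact (Finset.prod_eq_zero (Finset.mem_range.2 hK) hk).symm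
  refine ⟨h1, ?_⟩
  have h2 : Tendsto (fun K => ∏ k ∈ Finset.range (K + 1), c k) atTop (𝓝 L) :=
    (tendsto_add_atTop_iff_nat 1).2 h
  have h3 := h2.div h hL
  rw [div_self hL] at h3
  refine h3.congr ?_
  intro K
  simp only [Pi.div_apply]
  rw [Finset.prod_range_succ, mul_div_assoc, mul_comm]
  have : ∏ k ∈ Finset.range K, c k ≠ 0 := Finset.prod_ne_zero_iff.2 fun k _ => h1 k
  field_simp

lemma G_diff {w : ℕ → ℂ} (hw : Summable fun k => ‖w k‖) :
    Differentiable ℂ (fun y : ℂ => ∏' k, (1 + w k * y)) := by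
  intro y
  have h := Summable.hasProdLocallyUniformlyOn_nat_one_add (f := fun k (y : ℂ) => w k * y)
    (K := Metric.ball 0 (‖y‖ + 1)) Metric.isOpen_ball (u := fun k => ‖w k‖ * (‖y‖ + 1))
    (hw.mul_right _)
    (Eventually.of_forall fun k x hx => by
      rw [norm_mul]
      rw [mem_ball_zero_iff] at hx
      exact mul_le_mul_of_nonneg_left hx.le (norm_nonneg _))
    (fun k => by fun_prop)
  have h2 := TendstoLocallyUniformlyOn.differentiableOn h
    (Eventually.of_forall fun s => by fun_prop) Metric.isOpen_ball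
  exact (h2 y (by simp)).differentiableAt (Metric.isOpen_ball.mem_nhds (by simp))

/-- Two products of linear factors which agree near the origin have the same zeros. -/
lemma zeros_eq {w v : ℕ → ℂ} (hw : Summable fun k => ‖w k‖) (hv : Summable fun k => ‖v k‖)
    (h : ∀ y : ℂ, ‖y‖ < 1 → ∃ L, Tendsto (fun K => ∏ k ∈ Finset.range K, (1 + w k * y)) atTop (𝓝 L) ∧
      Tendsto (fun K => ∏ k ∈ Finset.range K, (1 + v k * y)) atTop (𝓝 L))
    (k : ℕ) (hk : w k ≠ 0) : ∃ j, v j = w k := by
  have key : ∀ (u : ℕ → ℂ), (Summable fun k => ‖u k‖) → ∀ y : ℂ,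
      Tendsto (fun K => ∏ k ∈ Finset.range K, (1 + u k * y)) atTop (𝓝 (∏' k, (1 + u k * y))) := by
    intro u hu y
    apply Multipliable.tendsto_prod_tprod_nat
    apply multipliable_one_add_of_summable
    simp only [norm_mul]
    exact hu.mul_right _
  have h1 : (fun y : ℂ => ∏' k, (1 + w k * y)) = fun y : ℂ => ∏' k, (1 + v k * y) := by
    have h2 : AnalyticOnNhd ℂ (fun y : ℂ => ∏' k, (1 + w k * y)) Set.univ :=
      (G_diff hw).differentiableOn.analyticOnNhd isOpen_univ
    have h3 : AnalyticOnNhd ℂ (fun y : ℂ => ∏' k, (1 + v k * y)) Set.univ :=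
      (G_diff hv).differentiableOn.analyticOnNhd isOpen_univ
    have h4 := h2.eqOn_of_preconnected_of_eventuallyEq h3 isPreconnected_univ (Set.mem_univ 0)
      (by
        filter_upwards [Metric.ball_mem_nhds (0 : ℂ) one_pos] with y hy
        rw [mem_ball_zero_iff] at hy
        obtain ⟨L, hL1, hL2⟩ := h y hy
        rw [tendsto_nhds_unique (key w hw y) hL1, tendsto_nhds_unique (key v hv y) hL2])
    funext y
    exact h4 (Set.mem_univ y)
  by_contra hne
  push Not at hne
  have h2 := congrFun h1 (-(w k)⁻¹)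
  have h3 : ∏' j, (1 + w j * -(w k)⁻¹) = 0 := by
    refine tendsto_nhds_unique (key w hw (-(w k)⁻¹)) ?_
    apply tendsto_const_nhds.congr'
    filter_upwards [eventually_gt_atTop k] with K hK
    refine (Finset.prod_eq_zero (Finset.mem_range.2 hK) ?_).symm
    field_simp
    ring
  have h4 : ∏' j, (1 + v j * -(w k)⁻¹) ≠ 0 := by
    apply tprod_one_add_ne_zero_of_summable
    · intro j hj
      apply hne j
      field_simp at hj
      linear_combination -hj
    · simp only [norm_mul]
      exact hv.mul_right _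
  exact h4 (h2.symm.trans h3)

/-- the power series `∑ β j z ^ (j + 1)` -/
noncomputable def ps (β : ℕ → ℂ) (z : ℂ) : ℂ := ∑' j, β j * z ^ (j + 1)

lemma ps_summable {β : ℕ → ℂ} {M : ℝ} (hβ : ∀ j, ‖β j‖ ≤ M) {z : ℂ} (hz : ‖z‖ < 1) :
    Summable fun j => ‖β j * z ^ (j + 1)‖ := by
  have h1 : Summable fun j : ℕ => M * ‖z‖ ^ (j + 1) :=
    ((summable_nat_add_iff 1).2 (summable_geometric_of_lt_one (norm_nonneg z) hz)).mul_left M
  refine Summable.of_nonneg_of_le (fun j => norm_nonneg _) ?_ h1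
  intro j
  rw [norm_mul, norm_pow]
  exact mul_le_mul_of_nonneg_right (hβ j) (by positivity)

lemma ps_diff {β : ℕ → ℂ} {M : ℝ} (hβ : ∀ j, ‖β j‖ ≤ M) :
    DifferentiableOn ℂ (ps β) (Metric.ball 0 1) := by
  intro z hz
  rw [mem_ball_zero_iff] at hz
  obtain ⟨r, hr1, hr2⟩ := exists_between hz
  have hr0 : 0 ≤ r := (norm_nonneg z).trans hr1.le
  have h1 : Summable fun j : ℕ => M * r ^ (j + 1) :=
    ((summable_nat_add_iff 1).2 (summable_geometric_of_lt_one hr0 hr2)).mul_left M
  have h2 : DifferentiableOn ℂ (ps β) (Metric.ball 0 r) := by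
    apply Complex.differentiableOn_tsum_of_summable_norm h1
    · intro j
      fun_prop
    · exact Metric.isOpen_ball
    · intro j y hy
      rw [mem_ball_zero_iff] at hy
      rw [norm_mul, norm_pow]
      have : 0 ≤ M := (norm_nonneg _).trans (hβ 0)
      gcongr
      exact hβ j
  exact ((h2 z (by simpa using hr1)).differentiableAt
    (Metric.isOpen_ball.mem_nhds (by simpa using hr1))).differentiableWithinAt

lemma ps_conj (β : ℕ → ℂ) (z : ℂ) :
    (starRingEnd ℂ) (ps β ((starRingEnd ℂ) z)) = ps (fun j => (starRingEnd ℂ) (β j)) z := by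
  unfold ps
  rw [Complex.conj_tsum]
  simp

/-- Abel's theorem. -/
lemma ps_abel {β : ℕ → ℂ} {B : ℂ}
    (h : Tendsto (fun J => ∑ j ∈ Finset.range J, β j) atTop (𝓝 B)) :
    Tendsto (fun x : ℝ => ps β (x : ℂ)) (𝓝[<] 1) (𝓝 B) := by
  have h1 := Complex.tendsto_tsum_powerSeries_nhdsWithin_lt h
  have h2 : Tendsto (fun x : ℝ => (x : ℂ)) (𝓝[<] 1) (𝓝 1) := by
    have : Tendsto (fun x : ℝ => (x : ℂ)) (𝓝 1) (𝓝 ((1 : ℝ) : ℂ)) :=
      Complex.continuous_ofReal.continuousAt
    rw [Complex.ofReal_one] at this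
    exact this.mono_left nhdsWithin_le_nhds
  rw [tendsto_map'_iff] at h1
  have h3 := h2.mul h1
  rw [one_mul] at h3
  refine h3.congr ?_
  intro x
  unfold ps
  simp only [Function.comp_apply]
  rw [← tsum_mul_left]
  congr 1
  funext j
  ring

end Pool.Agent.Q290.Late
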