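import Pool.Agent.Q290.Late.Defs

/-! The balance equations of the late arrivals chain. -/

open Filter Topology

namespace Pool.Agent.Q290.Late

lemma bin_nonneg {q : ℝ} (h0 : 0 ≤ q) (h1 : q ≤ 1) (L m : ℕ) : 0 ≤ bin q L m := by
  unfold bin
  have : 0 ≤ 1 - q := by linarith
  positivity

lemma sum_bin (q : ℝ) (L : ℕ) : ∑ m ∈ Finset.range (L + 1), bin q L m = 1 := by
  have := add_pow (1 - q) q L
  rw [sub_add_cancel, one_pow] at this
  rw [this]
  apply Finset.sum_congr rfl
  intro m _
  unfold bin
  ring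

lemma arr_zero (q : ℝ) (L n' l' : ℕ) :
    arr q 0 L (n', l') = if L = l' + n' then bin q L n' else 0 := by
  unfold arr
  simp only [lt_self_iff_false, if_false, zero_add, Nat.sub_zero, Prod.mk.injEq]
  by_cases h : L = l' + n'
  · rw [if_pos h, Finset.sum_eq_single n']
    · rw [if_pos ⟨rfl, by omega⟩]
    · intro m _ hm
      rw [if_neg]
      rintro ⟨h1, _⟩
      exact hm h1.symm
    · intro hn
      exact absurd (Finset.mem_range.2 (by omega)) hn
  · rw [if_neg h]
    apply Finset.sum_eq_zero
    intro m hm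
    rw [Finset.mem_range] at hm
    rw [if_neg]
    rintro ⟨h1, h2⟩
    omega

lemma arr_succ (q : ℝ) (i L n' l' : ℕ) :
    arr q (i + 1) L (n', l') =
      if i ≤ n' ∧ L = l' + n' - i then bin q L (n' - i) else 0 := by
  unfold arr
  simp only [Nat.succ_pos, if_true, Prod.mk.injEq]
  by_cases h : i ≤ n' ∧ L = l' + n' - i
  · rw [if_pos h, Finset.sum_eq_single (n' - i)]
    · rw [if_pos ⟨by omega, by omega⟩]
    · intro m _ hm
      rw [if_neg]
      rintro ⟨h1, _⟩
      apply hm
      omega
    · intro hn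
      exact absurd (Finset.mem_range.2 (by omega)) hn
  · rw [if_neg h]
    apply Finset.sum_eq_zero
    intro m hm
    rw [Finset.mem_range] at hm
    rw [if_neg]
    rintro ⟨h1, h2⟩
    apply h
    constructor <;> omega

/-- mass of `(n, L)` after the next customer is scheduled -/
noncomputable def Q (ρ : ℝ) (P : ℕ → ℕ → ℝ) (n L : ℕ) : ℝ :=
  (1 - ρ) * P n L + ρ * (if L = 0 then 0 else P n (L - 1))

lemma sum_row (ρ q : ℝ) (P : ℕ → ℕ → ℝ) (n n' l' M : ℕ) (hM : l' + n' < M) (A : ℕ) (c : ℝ)
    (hA : A ≤ l' + n')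
    (h : ∀ L, arr q n L (n', l') = if L = A then c else 0) :
    ∑ l ∈ Finset.range M, P n l * trans ρ q (n, l) (n', l') = Q ρ P n A * c := by
  have h1 : ∀ l, P n l * trans ρ q (n, l) (n', l') =
      (if l + 1 = A then ρ * P n l * c else 0) + (if l = A then (1 - ρ) * P n l * c else 0) := by
    intro l
    unfold trans
    simp only
    rw [h, h]
    split_ifs <;> ring
  rw [Finset.sum_congr rfl fun l _ => h1 l, Finset.sum_add_distrib, Finset.sum_ite_eq',
    if_pos (Finset.mem_range.2 (by omega))]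
  unfold Q
  rcases Nat.eq_zero_or_pos A with h0 | h0
  · subst h0
    rw [Finset.sum_eq_zero (fun l _ => if_neg (by omega))]
    simp only [if_true]
    ring
  · rw [if_neg (by omega)]
    rw [Finset.sum_eq_single (A - 1)]
    · rw [if_pos (by omega)]
      ring
    · intro l _ hl
      rw [if_neg (by omega)]
    · intro hn
      exact absurd (Finset.mem_range.2 (by omega)) hn

lemma row_zero (ρ q : ℝ) (P : ℕ → ℕ → ℝ) (n' l' M : ℕ) (hM : l' + n' < M) :
    ∑ l ∈ Finset.range M, P 0 l * trans ρ q (0, l) (n', l') =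
      Q ρ P 0 (l' + n') * bin q (l' + n') n' := by
  apply sum_row ρ q P 0 n' l' M hM _ _ le_rfl
  intro L
  rw [arr_zero]
  split_ifs with h
  · rw [h]
  · rfl

lemma row_succ (ρ q : ℝ) (P : ℕ → ℕ → ℝ) (i n' l' M : ℕ) (hM : l' + n' < M) (hi : i ≤ n') :
    ∑ l ∈ Finset.range M, P (i + 1) l * trans ρ q (i + 1, l) (n', l') =
      Q ρ P (i + 1) (l' + n' - i) * bin q (l' + n' - i) (n' - i) := by
  apply sum_row ρ q P (i + 1) n' l' M hM _ _ (by omega)
  intro L
  rw [arr_succ]
  by_cases h : L = l' + n' - i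
  · rw [if_pos ⟨hi, h⟩, if_pos h, h]
  · rw [if_neg (fun h' => h h'.2), if_neg h]

/-- The balance equation. -/
lemma balance_eq {ρ q : ℝ} {P : ℕ → ℕ → ℝ} (hP : IsStationary ρ q P) (n' l' : ℕ) :
    P n' l' = Q ρ P 0 (l' + n') * bin q (l' + n') n' +
      ∑ i ∈ Finset.range (n' + 1),
        Q ρ P (i + 1) (l' + n' - i) * bin q (l' + n' - i) (n' - i) := by
  have h1 := (hP.balance (n', l')).tsum_eq
  simp only at h1
  rw [← h1]
  set M := l' + n' + 1 with hM
  rw [tsum_eq_sum (s := Finset.range (n' + 2) ×ˢ Finset.range M)]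
  · rw [Finset.sum_product, Finset.sum_range_succ', add_comm]
    congr 1
    · exact row_zero ρ q P n' l' M (by omega)
    · apply Finset.sum_congr rfl
      intro i hi
      rw [Finset.mem_range] at hi
      exact row_succ ρ q P i n' l' M (by omega) (by omega)
  · rintro ⟨n, l⟩ hx
    have hx' : ¬ (n < n' + 2 ∧ l < M) := by simpa using hx
    have h2 : trans ρ q (n, l) (n', l') = 0 := by
      unfold trans
      cases n with
      | zero =>
        simp only [arr_zero]
        rw [if_neg (by omega), if_neg (by omega)]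
        ring
      | succ i =>
        simp only [arr_succ]
        rw [if_neg (by omega), if_neg (by omega)]
        ring
    simp only [h2, mul_zero]

end Pool.Agent.Q290.Late
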