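import Pool.Agent.Q290.Late.Num

/-! The first coefficients in `y` of the generating function at `z = -24/5 * θ`. -/

open Filter Topology

namespace Pool.Agent.Q290.Late

section

variable {θ : ℝ} {P : ℕ → ℕ → ℝ}

lemma V01 (h0 : 0 < θ) (h1 : θ < 1) (hP : IsStationary (1 - θ) (3 / 5) P) : V θ P 0 1 ≤ 3 / 2 := by
  have h2 := V_decay h0 h1 (by norm_num) (by norm_num) hP 0
  rw [V_00 h0 h1 (by norm_num) (by norm_num) hP] at h2
  norm_num at h2
  linarith

lemma V0_succ_le (h0 : 0 < θ) (h1 : θ < 1) (hP : IsStationary (1 - θ) (3 / 5) P) (s : ℕ)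
    (hs : 1 ≤ s) : V θ P 0 (s + 1) ≤ V θ P 0 s := by
  have h2 := V_decay h0 h1 (by norm_num) (by norm_num) hP s
  have h3 : ((3 : ℝ) / 5) ^ (s + 1) ≤ (3 / 5) ^ 2 :=
    pow_le_pow_of_le_one (by norm_num) (by norm_num) (by omega)
  have h4 := V_nonneg h0 hP 0 s
  have h5 := V_nonneg h0 hP 0 (s + 1)
  have h6 : 0 ≤ ((3 : ℝ) / 5) ^ (s + 1) := by positivity
  nlinarith

lemma V0_le (h0 : 0 < θ) (h1 : θ < 1) (hP : IsStationary (1 - θ) (3 / 5) P) (s : ℕ) :
    V θ P 0 s ≤ 3 / 2 := by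
  induction s with
  | zero => rw [V_00 h0 h1 (by norm_num) (by norm_num) hP]; norm_num
  | succ s ih =>
    rcases Nat.eq_zero_or_pos s with h | h
    · subst h; exact V01 h0 h1 hP
    · exact (V0_succ_le h0 h1 hP s h).trans ih

/-- the error in the limit equations -/
noncomputable def err (θ : ℝ) (P : ℕ → ℕ → ℝ) (n l : ℕ) : ℝ :=
  V θ P n l - ∑ i ∈ Finset.range (n + 1), (V θ P (i + 1) (n + l - i) +
    (if n + l - i = 0 then 0 else V θ P (i + 1) (n + l - i - 1))) * bin (3 / 5) (n + l - i) (n - i)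

lemma approx (θ : ℝ) (P : ℕ → ℕ → ℝ) : Approx (V θ P) (err θ P) := by
  intro s _ n hn
  unfold err
  rw [show n + (s - n) = s by omega]
  ring

lemma bin_le_one {q : ℝ} (h0 : 0 ≤ q) (h1 : q ≤ 1) (L m : ℕ) : bin q L m ≤ 1 := by
  rcases Nat.lt_or_ge L m with h | h
  · unfold bin
    rw [Nat.choose_eq_zero_of_lt h]
    simp
  · rw [← sum_bin q L]
    exact Finset.single_le_sum (f := fun m => bin q L m) (fun m _ => bin_nonneg h0 h1 L m)
      (Finset.mem_range.2 (by omega))

lemma err_le (h0 : 0 < θ) (h1 : θ < 1) (hP : IsStationary (1 - θ) (3 / 5) P) (n l : ℕ) :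
    |err θ P n l| ≤ 5 * θ := by
  have h2 := V_eq h0 h1 (by norm_num) (by norm_num) hP n l (n + l) (by omega)
  set s := n + l with hs
  set A : ℝ := (θ * V θ P 0 s + (1 - θ) * θ * (if s = 0 then 0 else V θ P 0 (s - 1))) *
        bin (3 / 5) s n with hA
  set B : ℝ := ∑ i ∈ Finset.range (n + 1),
    (if s - i = 0 then 0 else V θ P (i + 1) (s - i - 1)) * bin (3 / 5) (s - i) (n - i) with hB
  have h3 : err θ P n l = A - θ * B := by
    unfold err
    rw [← hs, h2, hB, Finset.mul_sum]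
    have : ∀ i, (V θ P (i + 1) (s - i) +
        (1 - θ) * (if s - i = 0 then 0 else V θ P (i + 1) (s - i - 1))) *
          bin (3 / 5) (s - i) (n - i) = (V θ P (i + 1) (s - i) +
        (if s - i = 0 then 0 else V θ P (i + 1) (s - i - 1))) *
          bin (3 / 5) (s - i) (n - i) - θ * ((if s - i = 0 then 0 else V θ P (i + 1) (s - i - 1)) *
            bin (3 / 5) (s - i) (n - i)) := by
      intro i
      ring
    rw [Finset.sum_congr rfl fun i _ => this i, Finset.sum_sub_distrib]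
    ring
  have hA0 : 0 ≤ A := by
    have h4 := V_nonneg h0 hP 0 s
    have h5 := V_nonneg h0 hP 0 (s - 1)
    have h6 : (0 : ℝ) ≤ (if s = 0 then 0 else V θ P 0 (s - 1)) := by split_ifs <;> simp [h5]
    have h7 := bin_nonneg (q := 3 / 5) (by norm_num) (by norm_num) s n
    have h8 : 0 ≤ 1 - θ := by linarith
    positivity
  have hA1 : A ≤ 3 * θ := by
    have h4 := V0_le h0 h1 hP s
    have h5 := V0_le h0 h1 hP (s - 1)
    have h5' := V_nonneg h0 hP 0 (s - 1)
    have h6 : (if s = 0 then 0 else V θ P 0 (s - 1)) ≤ (3 / 2 : ℝ) := by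
      split_ifs
      · norm_num
      · exact h5
    have h6' : (0 : ℝ) ≤ (if s = 0 then 0 else V θ P 0 (s - 1)) := by split_ifs <;> simp [h5']
    have h7 := bin_nonneg (q := 3 / 5) (by norm_num) (by norm_num) s n
    have h7' := bin_le_one (q := 3 / 5) (by norm_num) (by norm_num) s n
    have h9 : θ * V θ P 0 s + (1 - θ) * θ * (if s = 0 then 0 else V θ P 0 (s - 1)) ≤ 3 * θ := by
      have h10 : θ * V θ P 0 s ≤ θ * (3 / 2) := mul_le_mul_of_nonneg_left h4 h0.le
      have h11 : (1 - θ) * θ * (if s = 0 then 0 else V θ P 0 (s - 1)) ≤ 1 * θ * (3 / 2) := by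
        gcongr
        linarith
      linarith
    have h10 : 0 ≤ θ * V θ P 0 s + (1 - θ) * θ * (if s = 0 then 0 else V θ P 0 (s - 1)) := by
      have h4' := V_nonneg h0 hP 0 s
      have h8 : 0 ≤ 1 - θ := by linarith
      positivity
    calc A ≤ (θ * V θ P 0 s + (1 - θ) * θ * (if s = 0 then 0 else V θ P 0 (s - 1))) * 1 :=
          mul_le_mul_of_nonneg_left h7' h10
      _ ≤ 3 * θ := by linarith
  have hterm : ∀ i, (0 : ℝ) ≤ (if s - i = 0 then 0 else V θ P (i + 1) (s - i - 1)) := by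
    intro i
    have h5 := V_nonneg h0 hP (i + 1) (s - i - 1)
    split_ifs <;> simp [h5]
  have hB0 : 0 ≤ B := Finset.sum_nonneg fun i _ =>
    mul_nonneg (hterm i) (bin_nonneg (by norm_num) (by norm_num) _ _)
  have hB1 : B ≤ 3 / 2 := by
    have h4 : B ≤ ∑ i ∈ Finset.range (n + 1),
        (if s - i = 0 then 0 else V θ P (i + 1) (s - i - 1)) := by
      apply Finset.sum_le_sum
      intro i _
      exact mul_le_of_le_one_right (hterm i) (bin_le_one (by norm_num) (by norm_num) _ _)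
    have h5 : ∑ i ∈ Finset.range (n + 1),
        (if s - i = 0 then 0 else V θ P (i + 1) (s - i - 1)) ≤
        ∑ i ∈ Finset.range (s + 1),
        (if s - i = 0 then 0 else V θ P (i + 1) (s - i - 1)) := by
      apply Finset.sum_le_sum_of_subset_of_nonneg
      · intro i
        simp only [Finset.mem_range]
        omega
      · intro i _ _
        exact hterm i
    replace h5 := h4.trans h5
    rw [Finset.sum_range_succ _ s, if_pos (Nat.sub_self s), add_zero] at h5
    clear_value A B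
    clear_value s
    rcases Nat.eq_zero_or_pos s with h | h
    · rw [h, Finset.sum_range_zero] at h5
      linarith
    · obtain ⟨t, rfl⟩ : ∃ t, s = t + 1 := ⟨s - 1, by omega⟩
      have h6 : ∑ i ∈ Finset.range (t + 1),
          (if t + 1 - i = 0 then 0 else V θ P (i + 1) (t + 1 - i - 1)) =
          ∑ i ∈ Finset.range (t + 1), V θ P (i + 1) (t - i) := by
        apply Finset.sum_congr rfl
        intro i hi
        rw [Finset.mem_range] at hi
        rw [if_neg (by omega)]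
        congr 1
        omega
      rw [h6, V_cut h0 h1 (by norm_num) (by norm_num) hP] at h5
      have h7 := V0_le h0 h1 hP t
      have h8 := V_nonneg h0 hP 0 t
      nlinarith
  rw [h3, abs_le]
  constructor <;> nlinarith

/-- geometric decay beyond level 5 -/
lemma V0_tail (h0 : 0 < θ) (h1 : θ < 1) (hP : IsStationary (1 - θ) (3 / 5) P) (k : ℕ) :
    V θ P 0 (5 + k) ≤ V θ P 0 5 * (729 / 14896) ^ k := by
  induction k with
  | zero => simp
  | succ k ih =>
    have h2 := V_decay h0 h1 (by norm_num) (by norm_num) hP (5 + k)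
    have h3 : ((3 : ℝ) / 5) ^ (5 + k + 1) ≤ (3 / 5) ^ 6 :=
      pow_le_pow_of_le_one (by norm_num) (by norm_num) (by omega)
    have h4 := V_nonneg h0 hP 0 (5 + k)
    have h5 := V_nonneg h0 hP 0 (5 + k + 1)
    have h6 : V θ P 0 (5 + k + 1) * (1 - (3 / 5) ^ 6) ≤ (3 / 5) ^ 6 * V θ P 0 (5 + k) := by
      nlinarith
    have h7 : V θ P 0 (5 + k + 1) ≤ V θ P 0 (5 + k) * (729 / 14896) := by
      norm_num at h6
      linarith
    calc V θ P 0 (5 + (k + 1)) ≤ V θ P 0 (5 + k) * (729 / 14896) := h7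
      _ ≤ (V θ P 0 5 * (729 / 14896) ^ k) * (729 / 14896) :=
          mul_le_mul_of_nonneg_right ih (by norm_num)
      _ = V θ P 0 5 * (729 / 14896) ^ (k + 1) := by ring

/-- The scaled coefficient functions at `x = -24/5`. -/
noncomputable def C (θ : ℝ) (P : ℕ → ℕ → ℝ) (l : ℕ) : ℝ := ∑' n, V θ P n l * (-24 / 5) ^ n

lemma term_le (h0 : 0 < θ) (h1 : θ < 1) (hP : IsStationary (1 - θ) (3 / 5) P) (l n : ℕ)
    (hl : l ≤ 5) : |V θ P (n + (7 - l)) l * (-24 / 5) ^ (n + (7 - l))| ≤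
      (V θ P 0 5 * (729 / 14896) * (24 / 5) ^ (7 - l)) * (2187 / 9310) ^ n := by
  rw [abs_mul, abs_of_nonneg (V_nonneg h0 hP _ _), abs_pow]
  have h2 : |(-24 / 5 : ℝ)| = 24 / 5 := by rw [abs_of_neg (by norm_num)]; norm_num
  rw [h2]
  have h3 := V_le h0 h1 (by norm_num) (by norm_num) hP (n + (6 - l)) l
  rw [show n + (6 - l) + 1 = n + (7 - l) by omega, show n + (6 - l) + l = 5 + (n + 1) by omega]
    at h3
  have h4 := V0_tail h0 h1 hP (n + 1)
  calc V θ P (n + (7 - l)) l * (24 / 5) ^ (n + (7 - l)) ≤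
        (V θ P 0 5 * (729 / 14896) ^ (n + 1)) * (24 / 5) ^ (n + (7 - l)) :=
          mul_le_mul_of_nonneg_right (h3.trans h4) (by positivity)
    _ = (V θ P 0 5 * (729 / 14896) * (24 / 5) ^ (7 - l)) * (2187 / 9310) ^ n := by
        rw [pow_succ, pow_add, show (2187 / 9310 : ℝ) = 729 / 14896 * (24 / 5) by norm_num, mul_pow]
        ring

lemma C_approx (h0 : 0 < θ) (h1 : θ < 1) (hP : IsStationary (1 - θ) (3 / 5) P) (l : ℕ)
    (hl : l ≤ 5) : Summable (fun n => V θ P n l * (-24 / 5) ^ n) ∧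
      |C θ P l - ∑ n ∈ Finset.range (7 - l), V θ P n l * (-24 / 5) ^ n| ≤
        (V θ P 0 5 * (729 / 14896) * (24 / 5) ^ (7 - l)) * (9310 / 7123) := by
  have hg : HasSum (fun n : ℕ => (V θ P 0 5 * (729 / 14896) * (24 / 5) ^ (7 - l)) *
      (2187 / 9310 : ℝ) ^ n)
      ((V θ P 0 5 * (729 / 14896) * (24 / 5) ^ (7 - l)) * (9310 / 7123)) := by
    have := (hasSum_geometric_of_lt_one (r := (2187 / 9310 : ℝ)) (by norm_num)
      (by norm_num)).mul_left (V θ P 0 5 * (729 / 14896) * (24 / 5) ^ (7 - l))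
    rwa [show (1 - 2187 / 9310 : ℝ)⁻¹ = 9310 / 7123 by norm_num] at this
  have hs1 : Summable (fun n => V θ P (n + (7 - l)) l * (-24 / 5) ^ (n + (7 - l))) := by
    apply Summable.of_norm_bounded hg.summable
    intro n
    exact term_le h0 h1 hP l n hl
  have hs : Summable (fun n => V θ P n l * (-24 / 5) ^ n) :=
    (summable_nat_add_iff (f := fun n => V θ P n l * (-24 / 5) ^ n) (7 - l)).1 hs1
  refine ⟨hs, ?_⟩
  have h2 := hs.sum_add_tsum_nat_add (7 - l)
  unfold C
  rw [← h2, add_sub_cancel_left]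
  exact tsum_of_norm_bounded (f := fun n => V θ P (n + (7 - l)) l * (-24 / 5) ^ (n + (7 - l))) hg
    fun n => term_le h0 h1 hP l n hl

lemma C_bounds (h0 : 0 < θ) (h1 : θ ≤ 1 / 10 ^ 12) (hP : IsStationary (1 - θ) (3 / 5) P) :
    C θ P 0 ≤ -3 / 1000 ∧ |C θ P 1| ≤ 3 / 1000 ∧ C θ P 2 ≤ -9 / 1000 := by
  have h1' : θ < 1 := by norm_num at h1; linarith
  have hv := fun n l => V_nonneg h0 hP n l
  have h00 := V_00 h0 h1' (by norm_num) (by norm_num) hP
  have ha := approx θ P
  have he : ∀ n l, n + l ≤ 5 → |err θ P n l| ≤ 1 / 10 ^ 11 := by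
    intro n l _
    have h2 := err_le h0 h1' hP n l
    norm_num at h1 ⊢
    linarith
  have b5 := bound_v05 ha hv h00 he
  have b0 := bound_c0 ha hv h00 he
  have b1u := bound_c1u ha hv h00 he
  have b1l := bound_c1l ha hv h00 he
  have b2 := bound_c2 ha hv h00 he
  have c0 := (C_approx h0 h1' hP 0 (by norm_num)).2
  have c1 := (C_approx h0 h1' hP 1 (by norm_num)).2
  have c2 := (C_approx h0 h1' hP 2 (by norm_num)).2
  rw [abs_le] at c0 c1 c2
  simp only [Finset.sum_range_succ, Finset.sum_range_zero, Nat.sub_zero, Nat.reduceSub] at c0 c1 c2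
  norm_num at c0 c1 c2
  obtain ⟨c0a, c0b⟩ := c0
  obtain ⟨c1a, c1b⟩ := c1
  obtain ⟨c2a, c2b⟩ := c2
  refine ⟨?_, ?_, ?_⟩
  · linarith
  · rw [abs_le]
    constructor <;> linarith
  · linarith

end

end Pool.Agent.Q290.Late
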