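import Pool.Agent.Q290.Late.Bal

/-! Cut equations, decay and scaled variables. -/

open Filter Topology

namespace Pool.Agent.Q290.Late

/-- mass of the states of level `s` with nonempty queue -/
noncomputable def W (P : ℕ → ℕ → ℝ) (s : ℕ) : ℝ := ∑ i ∈ Finset.range s, P (i + 1) (s - 1 - i)

lemma level_sum {ρ q : ℝ} {P : ℕ → ℕ → ℝ} (hP : IsStationary ρ q P) (s : ℕ) :
    P 0 s + W P s = Q ρ P 0 s + ∑ i ∈ Finset.range (s + 1), Q ρ P (i + 1) (s - i) := by
  have h1 : P 0 s + W P s = ∑ n ∈ Finset.range (s + 1), P n (s - n) := by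
    rw [Finset.sum_range_succ', add_comm]
    congr 1
    unfold W
    apply Finset.sum_congr rfl
    intro i _
    congr 1
    omega
  rw [h1]
  have h2 : ∀ n ∈ Finset.range (s + 1), P n (s - n) = Q ρ P 0 s * bin q s n +
      ∑ i ∈ Finset.range (n + 1), Q ρ P (i + 1) (s - i) * bin q (s - i) (n - i) := by
    intro n hn
    rw [Finset.mem_range] at hn
    have := balance_eq hP n (s - n)
    rwa [show s - n + n = s by omega] at this
  rw [Finset.sum_congr rfl h2, Finset.sum_add_distrib, ← Finset.mul_sum, sum_bin, mul_one]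
  congr 1
  rw [Finset.sum_comm' (t' := Finset.range (s + 1)) (s' := fun i => Finset.Ico i (s + 1))]
  · apply Finset.sum_congr rfl
    intro i hi
    rw [Finset.mem_range] at hi
    rw [← Finset.mul_sum, Finset.sum_Ico_eq_sum_range]
    have h3 : ∑ k ∈ Finset.range (s + 1 - i), bin q (s - i) (i + k - i) = 1 := by
      rw [show s + 1 - i = (s - i) + 1 by omega]
      rw [← sum_bin q (s - i)]
      apply Finset.sum_congr rfl
      intro k _
      congr 1
      omega
    rw [h3, mul_one]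
  · intro n i
    simp only [Finset.mem_range, Finset.mem_Ico]
    constructor
    · rintro ⟨h1, h2⟩; omega
    · rintro ⟨h1, h2⟩; omega

lemma sum_Q (ρ : ℝ) (P : ℕ → ℕ → ℝ) (s : ℕ) :
    ∑ i ∈ Finset.range (s + 1), Q ρ P (i + 1) (s - i) = (1 - ρ) * W P (s + 1) + ρ * W P s := by
  unfold Q
  rw [Finset.sum_add_distrib, ← Finset.mul_sum, ← Finset.mul_sum]
  congr 1
  congr 1
  rw [Finset.sum_range_succ, Nat.sub_self, if_pos rfl, add_zero]
  unfold W
  apply Finset.sum_congr rfl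
  intro i hi
  rw [Finset.mem_range] at hi
  rw [if_neg (by omega)]
  congr 1
  omega

/-- The cut equation. -/
lemma cut_eq {ρ q : ℝ} {P : ℕ → ℕ → ℝ} (hP : IsStationary ρ q P) (s : ℕ) :
    ρ * P 0 s = (1 - ρ) * W P (s + 1) := by
  induction s with
  | zero =>
    have h1 := level_sum hP 0
    rw [sum_Q] at h1
    unfold Q at h1
    simp only [if_true] at h1
    have h2 : W P 0 = 0 := by simp [W]
    rw [h2] at h1
    linarith
  | succ s ih =>
    have h1 := level_sum hP (s + 1)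
    rw [sum_Q] at h1
    unfold Q at h1
    rw [if_neg (by omega), Nat.add_sub_cancel] at h1
    linarith

lemma W_nonneg {ρ q : ℝ} {P : ℕ → ℕ → ℝ} (hP : IsStationary ρ q P) (s : ℕ) : 0 ≤ W P s :=
  Finset.sum_nonneg fun i _ => hP.nonneg _ _

lemma le_W {ρ q : ℝ} {P : ℕ → ℕ → ℝ} (hP : IsStationary ρ q P) (n l : ℕ) :
    P (n + 1) l ≤ W P (n + l + 1) := by
  unfold W
  have h1 := Finset.single_le_sum (f := fun i => P (i + 1) (n + l + 1 - 1 - i))
    (fun i _ => hP.nonneg _ _) (Finset.mem_range.2 (show n < n + l + 1 by omega))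
  rwa [show n + l + 1 - 1 - n = l by omega] at h1

/-- Decay of the probabilities of an empty queue. -/
lemma decay {ρ q : ℝ} (hρ0 : 0 < ρ) (hρ1 : ρ < 1) (hq0 : 0 < q)
    {P : ℕ → ℕ → ℝ} (hP : IsStationary ρ q P) (s : ℕ) :
    P 0 (s + 1) * (1 - q ^ (s + 1)) ≤ q ^ (s + 1) * (ρ / (1 - ρ)) * P 0 s := by
  have h1 := balance_eq hP 0 (s + 1)
  simp only [zero_add, add_zero, Finset.range_one, Finset.sum_singleton, Nat.sub_zero] at h1
  have hb : bin q (s + 1) 0 = q ^ (s + 1) := by simp [bin]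
  rw [hb] at h1
  unfold Q at h1
  rw [if_neg (by omega), if_neg (by omega), Nat.add_sub_cancel] at h1
  have h2 := cut_eq hP s
  have h3 := cut_eq hP (s + 1)
  have h4 : P 1 s ≤ W P (s + 1) := by simpa using le_W hP 0 s
  have h5 : P 1 (s + 1) ≤ W P (s + 1 + 1) := by simpa using le_W hP 0 (s + 1)
  have hq : 0 < q ^ (s + 1) := by positivity
  have hθ : 0 < 1 - ρ := by linarith
  have h6 : W P (s + 1) = ρ / (1 - ρ) * P 0 s := by
    field_simp
    linarith
  have h7 : (1 - ρ) * P 1 (s + 1) + ρ * P 1 s ≤ ρ * P 0 (s + 1) + ρ * (ρ / (1 - ρ) * P 0 s) := by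
    have h8 : (1 - ρ) * P 1 (s + 1) ≤ (1 - ρ) * W P (s + 1 + 1) :=
      mul_le_mul_of_nonneg_left h5 hθ.le
    have h9 : ρ * P 1 s ≤ ρ * W P (s + 1) := mul_le_mul_of_nonneg_left h4 hρ0.le
    rw [h6] at h9
    linarith
  have h10 : ρ * P 0 s + ρ * (ρ / (1 - ρ) * P 0 s) = ρ / (1 - ρ) * P 0 s := by
    field_simp
    ring
  have h11 : P 0 (s + 1) ≤ q ^ (s + 1) * (P 0 (s + 1) + ρ / (1 - ρ) * P 0 s) := by
    calc P 0 (s + 1) = q ^ (s + 1) * (((1 - ρ) * P 0 (s + 1) + ρ * P 0 s) +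
          ((1 - ρ) * P 1 (s + 1) + ρ * P 1 s)) := by linarith
      _ ≤ q ^ (s + 1) * (((1 - ρ) * P 0 (s + 1) + ρ * P 0 s) +
          (ρ * P 0 (s + 1) + ρ * (ρ / (1 - ρ) * P 0 s))) :=
          mul_le_mul_of_nonneg_left (by linarith) hq.le
      _ = q ^ (s + 1) * (P 0 (s + 1) + ρ / (1 - ρ) * P 0 s) := by
          linear_combination q ^ (s + 1) * h10
  nlinarith

lemma P00_pos {ρ q : ℝ} (hρ0 : 0 < ρ) (hρ1 : ρ < 1) (hq0 : 0 < q) (hq1 : q < 1)
    {P : ℕ → ℕ → ℝ} (hP : IsStationary ρ q P) : 0 < P 0 0 := by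
  rcases (hP.nonneg 0 0).lt_or_eq with h | h
  · exact h
  · exfalso
    have h1 : ∀ s, P 0 s = 0 := by
      intro s
      induction s with
      | zero => exact h.symm
      | succ s ih =>
        have h2 := decay hρ0 hρ1 hq0 hP s
        rw [ih, mul_zero] at h2
        have h3 : 0 < 1 - q ^ (s + 1) := by
          have : q ^ (s + 1) < 1 := pow_lt_one₀ hq0.le hq1 (by omega)
          linarith
        have h4 := hP.nonneg 0 (s + 1)
        nlinarith
    have h2 : ∀ x : ℕ × ℕ, P x.1 x.2 = 0 := by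
      rintro ⟨n, l⟩
      cases n with
      | zero => exact h1 l
      | succ n =>
        have h3 := le_W hP n l
        have h4 := cut_eq hP (n + l)
        rw [h1] at h4
        have h5 := hP.nonneg (n + 1) l
        have h6 : W P (n + l + 1) = 0 := by
          have : 0 < 1 - ρ := by linarith
          nlinarith
        simp only
        linarith
    have h3 := hP.total
    simp only [h2] at h3
    exact absurd (h3.unique hasSum_zero) one_ne_zero

/-- scaled variables -/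
noncomputable def V (θ : ℝ) (P : ℕ → ℕ → ℝ) (n l : ℕ) : ℝ := P n l * θ ^ (n + l) / P 0 0

section Scaled

variable {θ q : ℝ} {P : ℕ → ℕ → ℝ}

lemma V_nonneg (h0 : 0 < θ) (hP : IsStationary (1 - θ) q P) (n l : ℕ) : 0 ≤ V θ P n l :=
  div_nonneg (mul_nonneg (hP.nonneg n l) (by positivity)) (hP.nonneg 0 0)

lemma V_eq (h0 : 0 < θ) (h1 : θ < 1) (hq0 : 0 < q) (hq1 : q < 1)
    (hP : IsStationary (1 - θ) q P) (n' l' s : ℕ) (hs : l' + n' = s) :
    V θ P n' l' = (θ * V θ P 0 s + (1 - θ) * θ * (if s = 0 then 0 else V θ P 0 (s - 1))) *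
        bin q s n' +
      ∑ i ∈ Finset.range (n' + 1), (V θ P (i + 1) (s - i) +
        (1 - θ) * (if s - i = 0 then 0 else V θ P (i + 1) (s - i - 1))) *
          bin q (s - i) (n' - i) := by
  have hP0 := P00_pos (by linarith) (by linarith) hq0 hq1 hP
  have hb := balance_eq hP n' l'
  rw [hs] at hb
  unfold V
  rw [hb, show n' + l' = s by omega, add_mul, add_div]
  congr 1
  · unfold Q
    rcases Nat.eq_zero_or_pos s with h | h
    · subst h
      simp only [if_true]
      ring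
    · rw [if_neg (by omega), if_neg (by omega)]
      have h2 : θ ^ s = θ ^ (s - 1) * θ := by rw [← pow_succ]; congr 1; omega
      simp only [zero_add]
      rw [h2]
      ring
  · rw [Finset.sum_mul, Finset.sum_div]
    apply Finset.sum_congr rfl
    intro i hi
    rw [Finset.mem_range] at hi
    have his : i ≤ s := by omega
    unfold Q
    rcases Nat.eq_zero_or_pos (s - i) with h | h
    · rw [if_pos h, if_pos h]
      have h3 : θ ^ (i + 1 + (s - i)) = θ ^ s * θ := by rw [← pow_succ]; congr 1; omega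
      rw [h3]
      ring
    · rw [if_neg (by omega), if_neg (by omega)]
      have h3 : θ ^ (i + 1 + (s - i)) = θ ^ s * θ := by rw [← pow_succ]; congr 1; omega
      have h4 : θ ^ (i + 1 + (s - i - 1)) = θ ^ s := by congr 1; omega
      rw [h3, h4]
      ring

lemma V_decay (h0 : 0 < θ) (h1 : θ < 1) (hq0 : 0 < q) (hq1 : q < 1)
    (hP : IsStationary (1 - θ) q P) (s : ℕ) :
    V θ P 0 (s + 1) * (1 - q ^ (s + 1)) ≤ q ^ (s + 1) * V θ P 0 s := by
  have hP0 := P00_pos (by linarith) (by linarith) hq0 hq1 hP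
  have h2 := decay (by linarith) (by linarith) hq0 hP s
  have h3 : (1 : ℝ) - (1 - θ) = θ := by ring
  rw [h3] at h2
  unfold V
  rw [zero_add, zero_add, div_mul_eq_mul_div, ← mul_div_assoc]
  apply div_le_div_of_nonneg_right _ hP0.le
  have h4 : q ^ (s + 1) * ((1 - θ) / θ) * P 0 s * θ ^ (s + 1) =
      (1 - θ) * (q ^ (s + 1) * (P 0 s * θ ^ s)) := by
    rw [pow_succ θ]
    field_simp
  have h5 : P 0 (s + 1) * (1 - q ^ (s + 1)) * θ ^ (s + 1) ≤
      q ^ (s + 1) * ((1 - θ) / θ) * P 0 s * θ ^ (s + 1) :=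
    mul_le_mul_of_nonneg_right h2 (by positivity)
  rw [h4] at h5
  have h6 : 0 ≤ q ^ (s + 1) * (P 0 s * θ ^ s) :=
    mul_nonneg (by positivity) (mul_nonneg (hP.nonneg _ _) (by positivity))
  calc P 0 (s + 1) * θ ^ (s + 1) * (1 - q ^ (s + 1)) =
        P 0 (s + 1) * (1 - q ^ (s + 1)) * θ ^ (s + 1) := by ring
    _ ≤ (1 - θ) * (q ^ (s + 1) * (P 0 s * θ ^ s)) := h5
    _ ≤ q ^ (s + 1) * (P 0 s * θ ^ s) := by nlinarith

/-- The scaled mass of a level with nonempty queue. -/
lemma V_cut (h0 : 0 < θ) (h1 : θ < 1) (hq0 : 0 < q) (hq1 : q < 1)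
    (hP : IsStationary (1 - θ) q P) (s : ℕ) :
    ∑ i ∈ Finset.range (s + 1), V θ P (i + 1) (s - i) = (1 - θ) * V θ P 0 s := by
  have hP0 := P00_pos (by linarith) (by linarith) hq0 hq1 hP
  have h2 := cut_eq hP s
  have h3 : (1 : ℝ) - (1 - θ) = θ := by ring
  rw [h3] at h2
  have h4 : ∑ i ∈ Finset.range (s + 1), V θ P (i + 1) (s - i) =
      W P (s + 1) * θ ^ (s + 1) / P 0 0 := by
    unfold W V
    rw [Finset.sum_mul, Finset.sum_div]
    apply Finset.sum_congr rfl
    intro i hi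
    rw [Finset.mem_range] at hi
    rw [show i + 1 + (s - i) = s + 1 by omega, show s + 1 - 1 - i = s - i by omega]
  rw [h4]
  unfold V
  rw [zero_add, pow_succ, ← mul_assoc, ← mul_div_assoc, ← mul_assoc, h2]
  ring

lemma V_le (h0 : 0 < θ) (h1 : θ < 1) (hq0 : 0 < q) (hq1 : q < 1)
    (hP : IsStationary (1 - θ) q P) (n l : ℕ) : V θ P (n + 1) l ≤ V θ P 0 (n + l) := by
  have h2 := V_cut h0 h1 hq0 hq1 hP (n + l)
  have h3 := Finset.single_le_sum (f := fun i => V θ P (i + 1) (n + l - i))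
    (fun i _ => V_nonneg h0 hP _ _) (Finset.mem_range.2 (show n < n + l + 1 by omega))
  rw [show n + l - n = l by omega, h2] at h3
  have h4 := V_nonneg h0 hP 0 (n + l)
  nlinarith

lemma V_00 (h0 : 0 < θ) (h1 : θ < 1) (hq0 : 0 < q) (hq1 : q < 1)
    (hP : IsStationary (1 - θ) q P) : V θ P 0 0 = 1 := by
  have hP0 := P00_pos (by linarith) (by linarith) hq0 hq1 hP
  unfold V
  field_simp
  simp

end Scaled

end Pool.Agent.Q290.Late
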