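import Mathlib

/-! Definitions for MP_4cdbd9_pr: the late arrivals chain and the product form. -/

open Filter Topology

namespace Pool.Agent.Q290.Late

/-- The probability that a binomial variable with parameters `L`, `p = 1 - q` equals `m`. -/
noncomputable def bin (q : ℝ) (L m : ℕ) : ℝ := (L.choose m : ℝ) * (1 - q) ^ m * q ^ (L - m)

/-- The probability to go from `(n, L)` (`L` customers late or just scheduled) to `y`:
`m` of the `L` customers arrive, and one customer is served if `n > 0`. -/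
noncomputable def arr (q : ℝ) (n L : ℕ) (y : ℕ × ℕ) : ℝ :=
  ∑ m ∈ Finset.range (L + 1),
    if y = (n + m - (if 0 < n then 1 else 0), L - m) then bin q L m else 0

/-- The transition probabilities of the chain `(n_t, l_t)`. -/
noncomputable def trans (ρ q : ℝ) (x y : ℕ × ℕ) : ℝ :=
  ρ * arr q x.1 (x.2 + 1) y + (1 - ρ) * arr q x.1 x.2 y

/-- `P` is a stationary distribution of the chain. -/
structure IsStationary (ρ q : ℝ) (P : ℕ → ℕ → ℝ) : Prop where
  nonneg : ∀ n l, 0 ≤ P n l
  total : HasSum (fun x : ℕ × ℕ => P x.1 x.2) 1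
  balance : ∀ y : ℕ × ℕ, HasSum (fun x : ℕ × ℕ => P x.1 x.2 * trans ρ q x y) (P y.1 y.2)

/-- The stationary generating function. -/
noncomputable def genFun (P : ℕ → ℕ → ℝ) (z y : ℂ) : ℂ :=
  ∑' x : ℕ × ℕ, (P x.1 x.2 : ℂ) * z ^ x.1 * y ^ x.2

/-- The conjectured product form: there are complex numbers `β k j` (`j ≥ 1`, here `β k j` is the
coefficient of `z ^ (j + 1) - 1`) such that on the closed unit bidisc the inner series and the
product converge (only convergence of the partial sums and of the partial products is asked) and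
the product is the generating function. -/
def ProductForm (ρ q : ℝ) (P : ℕ → ℕ → ℝ) : Prop :=
  ∃ β : ℕ → ℕ → ℂ, ∀ z y : ℂ, ‖z‖ ≤ 1 → ‖y‖ ≤ 1 → ∃ g : ℕ → ℂ,
    (∀ k, Tendsto (fun J => ∑ j ∈ Finset.range J, β k j * (z ^ (j + 1) - 1)) atTop (𝓝 (g k))) ∧
    Tendsto (fun K => ∏ k ∈ Finset.range K,
      (1 + (ρ : ℂ) * (q : ℂ) ^ (k + 1) * (y - z) + (q : ℂ) ^ k * g k)) atTop (𝓝 (genFun P z y))

end Pool.Agent.Q290.Late
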