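import Pool.Agent.Q290.Late.Cut
import Pool.Agent.Q290.Late.Ana

/-! Consequences of the product form. -/

open Filter Topology

namespace Pool.Agent.Q290.Late

/-- the factors of the product form at `y = 0`, for `|z| < 1` -/
noncomputable def A (ρ q : ℝ) (β : ℕ → ℕ → ℂ) (B : ℕ → ℂ) (k : ℕ) (z : ℂ) : ℂ :=
  1 - (ρ : ℂ) * (q : ℂ) ^ (k + 1) * z + (q : ℂ) ^ k * (ps (β k) z - B k)

/-- the product form in terms of analytic functions `A k` of the open unit disc -/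
structure Fac (ρ q : ℝ) (P : ℕ → ℕ → ℝ) (β : ℕ → ℕ → ℂ) (B : ℕ → ℂ) : Prop where
  sum : ∀ k, Tendsto (fun J => ∑ j ∈ Finset.range J, β k j) atTop (𝓝 (B k))
  prod : ∀ z y : ℂ, ‖z‖ < 1 → ‖y‖ ≤ 1 → Tendsto (fun K => ∏ k ∈ Finset.range K,
      (A ρ q β B k z + (ρ : ℂ) * (q : ℂ) ^ (k + 1) * y)) atTop (𝓝 (genFun P z y))

lemma bounded_of_sum {β : ℕ → ℂ} {B : ℂ}
    (h : Tendsto (fun J => ∑ j ∈ Finset.range J, β j) atTop (𝓝 B)) : ∃ M, ∀ j, ‖β j‖ ≤ M := by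
  have h1 : Tendsto (fun J => ∑ j ∈ Finset.range (J + 1), β j) atTop (𝓝 B) :=
    (tendsto_add_atTop_iff_nat 1).2 h
  have h2 := h1.sub h
  have h3 : Tendsto β atTop (𝓝 0) := by
    rw [sub_self] at h2
    refine h2.congr ?_
    intro J
    rw [Finset.sum_range_succ]
    ring
  obtain ⟨M, hM⟩ := h3.norm.bddAbove_range
  exact ⟨M, fun j => hM ⟨j, rfl⟩⟩

lemma fac_of_productForm {ρ q : ℝ} {P : ℕ → ℕ → ℝ} (h : ProductForm ρ q P) :
    ∃ β B, Fac ρ q P β B := by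
  obtain ⟨β, hβ⟩ := h
  obtain ⟨g0, hg0, _⟩ := hβ 0 0 (by simp) (by simp)
  have hB : ∀ k, Tendsto (fun J => ∑ j ∈ Finset.range J, β k j) atTop (𝓝 (-g0 k)) := by
    intro k
    refine (hg0 k).neg.congr ?_
    intro J
    rw [← Finset.sum_neg_distrib]
    apply Finset.sum_congr rfl
    intro j _
    rw [zero_pow (Nat.succ_ne_zero j)]
    ring
  refine ⟨β, fun k => -g0 k, hB, ?_⟩
  intro z y hz hy
  obtain ⟨g, hg1, hg2⟩ := hβ z y hz.le hy
  refine hg2.congr ?_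
  intro K
  apply Finset.prod_congr rfl
  intro k _
  obtain ⟨M, hM⟩ := bounded_of_sum (hB k)
  have h1 : Tendsto (fun J => ∑ j ∈ Finset.range J, β k j * z ^ (j + 1)) atTop
      (𝓝 (ps (β k) z)) := (ps_summable hM hz).of_norm.hasSum.tendsto_sum_nat
  have h2 : g k = ps (β k) z - -g0 k := by
    refine tendsto_nhds_unique (hg1 k) ?_
    refine (h1.sub (hB k)).congr ?_
    intro J
    rw [← Finset.sum_sub_distrib]
    apply Finset.sum_congr rfl
    intro j _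
    ring
  unfold A
  rw [h2]
  ring

section

variable {ρ q : ℝ} {P : ℕ → ℕ → ℝ}

lemma term_norm_le (hP : IsStationary ρ q P) {z y : ℂ} (hz : ‖z‖ ≤ 1) (hy : ‖y‖ ≤ 1)
    (x : ℕ × ℕ) : ‖(P x.1 x.2 : ℂ) * z ^ x.1 * y ^ x.2‖ ≤ P x.1 x.2 := by
  rw [norm_mul, norm_mul, norm_pow, norm_pow, Complex.norm_real, Real.norm_eq_abs,
    abs_of_nonneg (hP.nonneg _ _)]
  have h1 : ‖z‖ ^ x.1 ≤ 1 := pow_le_one₀ (norm_nonneg z) hz
  have h2 : ‖y‖ ^ x.2 ≤ 1 := pow_le_one₀ (norm_nonneg y) hy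
  calc P x.1 x.2 * ‖z‖ ^ x.1 * ‖y‖ ^ x.2 ≤ P x.1 x.2 * 1 * 1 := by
        have := hP.nonneg x.1 x.2
        gcongr
    _ = P x.1 x.2 := by ring

lemma gen_summable (hP : IsStationary ρ q P) {z y : ℂ} (hz : ‖z‖ ≤ 1) (hy : ‖y‖ ≤ 1) :
    Summable fun x : ℕ × ℕ => (P x.1 x.2 : ℂ) * z ^ x.1 * y ^ x.2 :=
  Summable.of_norm_bounded hP.total.summable (term_norm_le hP hz hy)

lemma gen_conj (P : ℕ → ℕ → ℝ) (x : ℝ) (y : ℂ) :
    (starRingEnd ℂ) (genFun P x ((starRingEnd ℂ) y)) = genFun P x y := by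
  unfold genFun
  rw [Complex.conj_tsum]
  simp

/-- the generating function at real points -/
noncomputable def genR (P : ℕ → ℕ → ℝ) (z y : ℝ) : ℝ := ∑' x : ℕ × ℕ, P x.1 x.2 * z ^ x.1 * y ^ x.2

lemma gen_real (P : ℕ → ℕ → ℝ) (z y : ℝ) : genFun P z y = (genR P z y : ℂ) := by
  unfold genFun genR
  rw [Complex.ofReal_tsum]
  congr 1
  funext x
  push_cast
  rfl

lemma genR_summable (hP : IsStationary ρ q P) {z y : ℝ} (hz : |z| ≤ 1) (hy : |y| ≤ 1) :
    Summable fun x : ℕ × ℕ => P x.1 x.2 * z ^ x.1 * y ^ x.2 := by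
  have h := gen_summable hP (z := (z : ℂ)) (y := (y : ℂ)) (by simpa using hz) (by simpa using hy)
  have h2 := Complex.hasSum_re h.hasSum
  refine h2.summable.congr ?_
  intro x
  rw [← Complex.ofReal_pow, ← Complex.ofReal_pow, ← Complex.ofReal_mul, ← Complex.ofReal_mul,
    Complex.ofReal_re]

lemma genR_pos (hρ0 : 0 < ρ) (hρ1 : ρ < 1) (hq0 : 0 < q) (hq1 : q < 1)
    (hP : IsStationary ρ q P) {x : ℝ} (hx0 : 0 ≤ x) (hx1 : x ≤ 1) : 0 < genR P x 0 := by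
  have h1 := P00_pos hρ0 hρ1 hq0 hq1 hP
  have h2 := genR_summable hP (z := x) (y := 0) (by rwa [abs_of_nonneg hx0]) (by simp)
  have h3 := h2.le_tsum (0, 0) (by
    rintro ⟨n, l⟩ _
    have := hP.nonneg n l
    positivity)
  simp only [pow_zero, mul_one] at h3
  exact lt_of_lt_of_le h1 h3

lemma w_summable (hq0 : 0 < q) (hq1 : q < 1) {a : ℕ → ℂ} (ha : Tendsto a atTop (𝓝 1)) :
    Summable fun k => ‖(ρ : ℂ) * (q : ℂ) ^ (k + 1) / a k‖ := by
  have h1 : Tendsto (fun k => ‖(a k)⁻¹‖) atTop (𝓝 ‖(1 : ℂ)⁻¹‖) :=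
    (ha.inv₀ one_ne_zero).norm
  obtain ⟨M, hM⟩ := h1.bddAbove_range
  have h2 : Summable fun k : ℕ => |ρ| * q ^ (k + 1) * M :=
    (((summable_nat_add_iff 1).2 (summable_geometric_of_lt_one hq0.le hq1)).mul_left |ρ|).mul_right M
  refine Summable.of_nonneg_of_le (fun k => norm_nonneg _) ?_ h2
  intro k
  rw [div_eq_mul_inv, norm_mul, norm_mul, norm_pow, Complex.norm_real, Complex.norm_real,
    Real.norm_eq_abs, Real.norm_eq_abs, abs_of_pos hq0]
  exact mul_le_mul_of_nonneg_left (hM ⟨k, rfl⟩) (by positivity)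

lemma match_zero (hρ0 : 0 < ρ) (hq0 : 0 < q) (hq1 : q < 1)
    {β : ℕ → ℕ → ℂ} {B : ℕ → ℂ} (hF : Fac ρ q P β B) {x : ℝ} (hx : |x| < 1)
    (hne : genFun P x 0 ≠ 0) (k : ℕ) :
    ∃ j, (q : ℂ) ^ k * A ρ q β B j x = (q : ℂ) ^ j * (starRingEnd ℂ) (A ρ q β B k x) := by
  have hx' : ‖(x : ℂ)‖ < 1 := by simpa using hx
  set a : ℕ → ℂ := fun k => A ρ q β B k x with ha
  have h0 : Tendsto (fun K => ∏ k ∈ Finset.range K, a k) atTop (𝓝 (genFun P x 0)) := by
    have := hF.prod x 0 hx' (by simp)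
    simpa using this
  obtain ⟨hane, ha1⟩ := factor_ne_zero h0 hne
  set w : ℕ → ℂ := fun k => (ρ : ℂ) * (q : ℂ) ^ (k + 1) / a k with hw
  have hws : Summable fun k => ‖w k‖ := w_summable hq0 hq1 ha1
  set v : ℕ → ℂ := fun k => (starRingEnd ℂ) (w k) with hv
  have hvs : Summable fun k => ‖v k‖ := by
    simpa [hv] using hws
  have hlim : ∀ y : ℂ, ‖y‖ < 1 → Tendsto (fun K => ∏ k ∈ Finset.range K, (1 + w k * y)) atTop
      (𝓝 (genFun P x y / genFun P x 0)) := by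
    intro y hy
    refine ((hF.prod x y hx' hy.le).div h0 hne).congr ?_
    intro K
    simp only [Pi.div_apply]
    rw [← Finset.prod_div_distrib]
    apply Finset.prod_congr rfl
    intro k _
    have := hane k
    simp only [hw, ha] at this ⊢
    field_simp
  have hq : ((q : ℂ)) ≠ 0 := by exact_mod_cast hq0.ne'
  have hρ : ((ρ : ℂ)) ≠ 0 := by exact_mod_cast hρ0.ne'
  have hwne : ∀ k, w k ≠ 0 := fun k => div_ne_zero (mul_ne_zero hρ (pow_ne_zero _ hq)) (hane k)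
  obtain ⟨j, hj⟩ := zeros_eq hvs hws (by
    intro y hy
    refine ⟨_, ?_, hlim y hy⟩
    have h1 := hlim ((starRingEnd ℂ) y) (by simpa using hy)
    have h2 := (Complex.continuous_conj.tendsto _).comp h1
    rw [map_div₀, gen_conj] at h2
    have h3 : (starRingEnd ℂ) (genFun P x 0) = genFun P x 0 := by
      have := gen_conj P x 0
      rwa [map_zero] at this
    rw [h3] at h2
    refine h2.congr ?_
    intro K
    simp only [Function.comp_apply, map_prod, map_add, map_one, map_mul, Complex.conj_conj, hv])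
    k (by simpa [hv] using hwne k)
  refine ⟨j, ?_⟩
  simp only [hv, hw, map_div₀, map_mul, map_pow, Complex.conj_ofReal] at hj
  have h5 : (starRingEnd ℂ) (a k) ≠ 0 := by simpa using hane k
  rw [div_eq_div_iff (hane j) h5] at hj
  have h6 : (ρ : ℂ) * q * ((q : ℂ) ^ k * a j) = (ρ : ℂ) * q * ((q : ℂ) ^ j * (starRingEnd ℂ) (a k)) := by
    rw [pow_succ, pow_succ] at hj
    linear_combination -hj
  exact mul_left_cancel₀ (mul_ne_zero hρ hq) h6

lemma A_diff {β : ℕ → ℕ → ℂ} {B : ℕ → ℂ} (hF : Fac ρ q P β B) (k : ℕ) :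
    DifferentiableOn ℂ (A ρ q β B k) (Metric.ball 0 1) := by
  obtain ⟨M, hM⟩ := bounded_of_sum (hF.sum k)
  have := ps_diff hM
  unfold A
  fun_prop

/-- the reflected function -/
noncomputable def A' (ρ q : ℝ) (β : ℕ → ℕ → ℂ) (B : ℕ → ℂ) (k : ℕ) (z : ℂ) : ℂ :=
  (starRingEnd ℂ) (A ρ q β B k ((starRingEnd ℂ) z))

lemma A'_eq (β : ℕ → ℕ → ℂ) (B : ℕ → ℂ) (k : ℕ) (z : ℂ) : A' ρ q β B k z =
    A ρ q (fun k j => (starRingEnd ℂ) (β k j)) (fun k => (starRingEnd ℂ) (B k)) k z := by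
  unfold A' A
  simp only [map_add, map_sub, map_mul, map_one, map_pow, Complex.conj_ofReal, Complex.conj_conj,
    ps_conj]

lemma A'_diff {β : ℕ → ℕ → ℂ} {B : ℕ → ℂ} (hF : Fac ρ q P β B) (k : ℕ) :
    DifferentiableOn ℂ (A' ρ q β B k) (Metric.ball 0 1) := by
  obtain ⟨M, hM⟩ := bounded_of_sum (hF.sum k)
  have := ps_diff (β := fun j => (starRingEnd ℂ) (β k j)) (M := M) (by simpa using hM)
  have h2 : A' ρ q β B k = fun z => A ρ q (fun k j => (starRingEnd ℂ) (β k j))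
      (fun k => (starRingEnd ℂ) (B k)) k z := funext (A'_eq β B k)
  rw [h2]
  unfold A
  fun_prop

lemma A_lim {β : ℕ → ℕ → ℂ} {B : ℕ → ℂ} (hF : Fac ρ q P β B) (k : ℕ) :
    Tendsto (fun x : ℝ => A ρ q β B k x) (𝓝[<] 1) (𝓝 (1 - (ρ : ℂ) * (q : ℂ) ^ (k + 1))) := by
  have h1 := ps_abel (hF.sum k)
  have h2 : Tendsto (fun x : ℝ => (x : ℂ)) (𝓝[<] 1) (𝓝 1) := by
    have : Tendsto (fun x : ℝ => (x : ℂ)) (𝓝 1) (𝓝 ((1 : ℝ) : ℂ)) :=
      Complex.continuous_ofReal.continuousAt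
    rw [Complex.ofReal_one] at this
    exact this.mono_left nhdsWithin_le_nhds
  have h3 := ((h2.const_mul ((ρ : ℂ) * (q : ℂ) ^ (k + 1))).const_sub 1).add
    ((h1.sub_const (B k)).const_mul ((q : ℂ) ^ k))
  rw [sub_self, mul_zero, add_zero, mul_one] at h3
  exact h3

/-- The factors are real on the real axis. -/
lemma A_real (hρ0 : 0 < ρ) (hρ1 : ρ < 1) (hq0 : 0 < q) (hq1 : q < 1) (hP : IsStationary ρ q P)
    {β : ℕ → ℕ → ℂ} {B : ℕ → ℂ} (hF : Fac ρ q P β B) (k : ℕ) {x : ℝ} (hx : |x| < 1) :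
    ∃ α : ℝ, A ρ q β B k x = α := by
  -- pigeonhole
  have h1 : ∀ x ∈ Set.Icc (0 : ℝ) (1 / 2), ∃ j,
      (q : ℂ) ^ k * A ρ q β B j x = (q : ℂ) ^ j * A' ρ q β B k x := by
    intro x hx
    obtain ⟨hx0, hx1⟩ := hx
    have h2 := genR_pos hρ0 hρ1 hq0 hq1 hP hx0 (by linarith)
    have h3 : genFun P x 0 ≠ 0 := by
      have := gen_real P x 0
      rw [Complex.ofReal_zero] at this
      rw [this]
      exact_mod_cast h2.ne'
    obtain ⟨j, hj⟩ := match_zero hρ0 hq0 hq1 hF (by rw [abs_of_nonneg hx0]; linarith) h3 k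
    refine ⟨j, ?_⟩
    rw [hj]
    unfold A'
    rw [Complex.conj_ofReal]
  have h2 : ∃ j, {x ∈ Set.Icc (0 : ℝ) (1 / 2) |
      (q : ℂ) ^ k * A ρ q β B j x = (q : ℂ) ^ j * A' ρ q β B k x}.Infinite := by
    by_contra hne
    have hne' : ∀ j, {x ∈ Set.Icc (0 : ℝ) (1 / 2) |
      (q : ℂ) ^ k * A ρ q β B j x = (q : ℂ) ^ j * A' ρ q β B k x}.Countable :=
      fun j => (Set.not_infinite.1 fun h => hne ⟨j, h⟩).countable
    have h3 : (Set.Icc (0 : ℝ) (1 / 2)).Countable := by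
      apply (Set.countable_iUnion hne').mono
      intro x hx
      obtain ⟨j, hj⟩ := h1 x hx
      exact Set.mem_iUnion.2 ⟨j, hx, hj⟩
    rw [Cardinal.Real.Icc_countable_iff] at h3
    norm_num at h3
  obtain ⟨j, hj⟩ := h2
  have hq : ((q : ℂ)) ≠ 0 := by exact_mod_cast hq0.ne'
  -- identity theorem
  have hid : ∀ z ∈ Metric.ball (0 : ℂ) 1,
      (q : ℂ) ^ k * A ρ q β B j z = (q : ℂ) ^ j * A' ρ q β B k z := by
    have h4 : ((fun x : ℝ => (x : ℂ)) '' {x ∈ Set.Icc (0 : ℝ) (1 / 2) |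
      (q : ℂ) ^ k * A ρ q β B j x = (q : ℂ) ^ j * A' ρ q β B k x}).Infinite :=
      hj.image Complex.ofReal_injective.injOn
    obtain ⟨z0, hz0, hacc⟩ := h4.exists_accPt_of_subset_isCompact
      (isCompact_closedBall (0 : ℂ) (1 / 2)) (by
        rintro _ ⟨x, ⟨⟨hx0, hx1⟩, _⟩, rfl⟩
        rw [mem_closedBall_zero_iff]
        simp only [Complex.norm_real, Real.norm_eq_abs, abs_of_nonneg hx0]
        exact hx1)
    rw [accPt_iff_frequently_nhdsNE] at hacc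
    have h5 : DifferentiableOn ℂ (fun z => (q : ℂ) ^ k * A ρ q β B j z) (Metric.ball 0 1) :=
      (A_diff hF j).const_mul _
    have h6 : DifferentiableOn ℂ (fun z => (q : ℂ) ^ j * A' ρ q β B k z) (Metric.ball 0 1) :=
      (A'_diff hF k).const_mul _
    have h7 := (h5.analyticOnNhd Metric.isOpen_ball).eqOn_of_preconnected_of_frequently_eq
      (h6.analyticOnNhd Metric.isOpen_ball) (convex_ball (0 : ℂ) 1).isPreconnected
      (z₀ := z0) (by
        rw [mem_closedBall_zero_iff] at hz0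
        rw [mem_ball_zero_iff]
        linarith) (hacc.mono (by
          rintro _ ⟨x, ⟨_, hx⟩, rfl⟩
          exact hx))
    exact h7
  -- Abel limit
  have hjk : j = k := by
    have h4 : Tendsto (fun x : ℝ => (q : ℂ) ^ k * A ρ q β B j x) (𝓝[<] 1)
        (𝓝 ((q : ℂ) ^ k * (1 - (ρ : ℂ) * (q : ℂ) ^ (j + 1)))) := (A_lim hF j).const_mul _
    have h5 : Tendsto (fun x : ℝ => (q : ℂ) ^ j * A' ρ q β B k x) (𝓝[<] 1)
        (𝓝 ((q : ℂ) ^ j * (1 - (ρ : ℂ) * (q : ℂ) ^ (k + 1)))) := by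
      apply Tendsto.const_mul
      have h6 := (Complex.continuous_conj.tendsto _).comp (A_lim hF k)
      simp only [map_sub, map_one, map_mul, map_pow, Complex.conj_ofReal] at h6
      refine h6.congr ?_
      intro x
      unfold A'
      rw [Complex.conj_ofReal]
      rfl
    have h6 := tendsto_nhds_unique (h4.congr' (by
      have : ∀ᶠ x : ℝ in 𝓝[<] 1, x ∈ Set.Ioo (0 : ℝ) 1 := Ioo_mem_nhdsLT one_pos
      filter_upwards [this] with x hx
      apply hid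
      rw [mem_ball_zero_iff, Complex.norm_real, Real.norm_eq_abs, abs_of_pos hx.1]
      exact hx.2)) h5
    have h7 : (q : ℂ) ^ k = (q : ℂ) ^ j := by
      rw [pow_succ, pow_succ] at h6
      linear_combination h6
    have h8 : q ^ k = q ^ j := by exact_mod_cast h7
    exact (pow_right_injective₀ hq0 hq1.ne h8).symm
  have h9 := hid x (by rw [mem_ball_zero_iff]; simpa using hx)
  rw [hjk] at h9
  have h10 := mul_left_cancel₀ (pow_ne_zero k hq) h9
  unfold A' at h10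
  rw [Complex.conj_ofReal] at h10
  obtain ⟨α, hα⟩ := Complex.conj_eq_iff_real.1 h10.symm
  exact ⟨α, hα⟩

/-- The key inequality for real factors. -/
lemma key_ineq (hρ0 : 0 < ρ) (hρ1 : ρ < 1) (hq0 : 0 < q) (hq1 : q < 1) (hP : IsStationary ρ q P)
    {β : ℕ → ℕ → ℂ} {B : ℕ → ℂ} (hF : Fac ρ q P β B) {z : ℝ} (hz : |z| < 1)
    (hne : genR P z 0 ≠ 0) :
    ∃ ε : ℝ, 0 < ε ∧ ε ≤ 1 ∧ ∀ h : ℝ, |h| ≤ ε → genR P z h * genR P z (-h) ≤ genR P z 0 ^ 2 := by
  have hz' : ‖(z : ℂ)‖ < 1 := by simpa using hz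
  choose α hα using fun k => A_real hρ0 hρ1 hq0 hq1 hP hF k hz
  have hlim : ∀ h : ℝ, |h| ≤ 1 → Tendsto (fun K => ∏ k ∈ Finset.range K,
      (α k + ρ * q ^ (k + 1) * h)) atTop (𝓝 (genR P z h)) := by
    intro h hh
    have h1 := hF.prod z h hz' (by simpa using hh)
    rw [gen_real] at h1
    have h2 := (Complex.continuous_re.tendsto _).comp h1
    rw [Complex.ofReal_re] at h2
    refine h2.congr ?_
    intro K
    simp only [Function.comp_apply]
    rw [← Complex.ofReal_re (∏ k ∈ Finset.range K, (α k + ρ * q ^ (k + 1) * h))]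
    congr 1
    push_cast
    apply Finset.prod_congr rfl
    intro k _
    rw [hα]
  have h0 := hlim 0 (by simp)
  simp only [mul_zero, add_zero] at h0
  have h0' : Tendsto (fun K => ∏ k ∈ Finset.range K, (α k : ℂ)) atTop (𝓝 ((genR P z 0 : ℝ) : ℂ)) := by
    have := (Complex.continuous_ofReal.tendsto _).comp h0
    refine this.congr ?_
    intro K
    simp
  obtain ⟨hane, ha1⟩ := factor_ne_zero h0' (by exact_mod_cast hne)
  obtain ⟨M, hM⟩ := (w_summable (ρ := ρ) hq0 hq1 ha1).tendsto_atTop_zero.bddAbove_range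
  have hM' : ∀ k, ρ * q ^ (k + 1) ≤ M * |α k| := by
    intro k
    have h1 : ‖(ρ : ℂ) * (q : ℂ) ^ (k + 1) / (α k : ℂ)‖ ≤ M := hM ⟨k, rfl⟩
    have h2 : ‖(ρ : ℂ) * (q : ℂ) ^ (k + 1) / (α k : ℂ)‖ = ρ * q ^ (k + 1) / |α k| := by
      rw [norm_div, norm_mul, norm_pow, Complex.norm_real, Complex.norm_real, Complex.norm_real,
        Real.norm_eq_abs, Real.norm_eq_abs, Real.norm_eq_abs, abs_of_pos hρ0, abs_of_pos hq0]
    rw [h2, div_le_iff₀ (abs_pos.2 (by exact_mod_cast hane k))] at h1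
    exact h1
  have hM0 : 0 ≤ M := (norm_nonneg _).trans (hM ⟨0, rfl⟩)
  refine ⟨1 / (M + 1), by positivity, by rw [div_le_one (by positivity)]; linarith, ?_⟩
  intro h hh
  have hh1 : |h| ≤ 1 := hh.trans (by rw [div_le_one (by positivity)]; linarith)
  have h1 := (hlim h hh1).mul (hlim (-h) (by rwa [abs_neg]))
  have h2 := h0.mul h0
  rw [← sq] at h2
  refine le_of_tendsto_of_tendsto' h1 h2 ?_
  intro K
  rw [← Finset.prod_mul_distrib, ← Finset.prod_mul_distrib]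
  have hkey : ∀ k, (ρ * q ^ (k + 1) * h) ^ 2 ≤ α k ^ 2 := by
    intro k
    rw [sq_le_sq, abs_mul, abs_of_pos (by positivity)]
    have h3 : (M + 1) * |h| ≤ 1 := by
      rw [le_div_iff₀ (by positivity)] at hh
      linarith
    have h4 : 0 ≤ |α k| := abs_nonneg _
    have h5 : 0 ≤ |h| := abs_nonneg _
    calc ρ * q ^ (k + 1) * |h| ≤ (M * |α k|) * |h| := mul_le_mul_of_nonneg_right (hM' k) h5
      _ ≤ |α k| := by nlinarith
  apply Finset.prod_le_prod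
  · intro k _
    have := hkey k
    nlinarith
  · intro k _
    have := sq_nonneg (ρ * q ^ (k + 1) * h)
    nlinarith

end

end Pool.Agent.Q290.Late
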