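import Pool.Agent.Q290.Late.Coef
import Pool.Agent.Q290.Late.Form

/-! The product form fails for `q = 3/5` and `ρ` close to `1`. -/

open Filter Topology

namespace Pool.Agent.Q290.Late

/-- coefficient of `y ^ l` -/
noncomputable def cf (P : ℕ → ℕ → ℝ) (z : ℝ) (l : ℕ) : ℝ := ∑' n, P n l * z ^ n

section

variable {ρ q : ℝ} {P : ℕ → ℕ → ℝ}

lemma swap_total (hP : IsStationary ρ q P) : HasSum (fun x : ℕ × ℕ => P x.2 x.1) 1 := by
  have := (Equiv.prodComm ℕ ℕ).hasSum_iff.2 hP.total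
  exact this

lemma cf_abs (hP : IsStationary ρ q P) {z : ℝ} (hz : |z| ≤ 1) (l : ℕ) :
    |cf P z l| ≤ ∑' n, P n l := by
  have h1 : Summable fun n => P n l := (swap_total hP).summable.prod_factor l
  refine tsum_of_norm_bounded (f := fun n => P n l * z ^ n) h1.hasSum ?_
  intro n
  rw [Real.norm_eq_abs, abs_mul, abs_of_nonneg (hP.nonneg _ _), abs_pow]
  exact mul_le_of_le_one_right (hP.nonneg _ _) (pow_le_one₀ (abs_nonneg _) hz)

lemma marg_sum (hP : IsStationary ρ q P) : HasSum (fun l => ∑' n, P n l) 1 :=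
  (swap_total hP).prod_fiberwise fun l => ((swap_total hP).summable.prod_factor l).hasSum

lemma cf_le_one (hP : IsStationary ρ q P) {z : ℝ} (hz : |z| ≤ 1) (l : ℕ) : |cf P z l| ≤ 1 := by
  refine (cf_abs hP hz l).trans ?_
  rw [← (marg_sum hP).tsum_eq]
  exact (marg_sum hP).summable.le_tsum l fun l' _ => tsum_nonneg fun n => hP.nonneg n l'

lemma genR_expand (hP : IsStationary ρ q P) {z h : ℝ} (hz : |z| ≤ 1) (hh : |h| ≤ 1) :
    |genR P z h - (cf P z 0 + cf P z 1 * h + cf P z 2 * h ^ 2)| ≤ |h| ^ 3 := by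
  have h1 := genR_summable hP hz hh
  have h2 : HasSum (fun x : ℕ × ℕ => P x.2 x.1 * z ^ x.2 * h ^ x.1) (genR P z h) :=
    (Equiv.prodComm ℕ ℕ).hasSum_iff.2 h1.hasSum
  have h3 : HasSum (fun l => cf P z l * h ^ l) (genR P z h) := by
    refine h2.prod_fiberwise fun l => ?_
    have h4 := h2.summable.prod_factor l
    have h5 := h4.hasSum
    have h6 : ∑' n, P n l * z ^ n * h ^ l = cf P z l * h ^ l := tsum_mul_right
    rw [h6] at h5
    exact h5
  have h4 := h3.summable.sum_add_tsum_nat_add 3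
  rw [h3.tsum_eq] at h4
  have h5 : genR P z h - (cf P z 0 + cf P z 1 * h + cf P z 2 * h ^ 2) =
      ∑' l, cf P z (l + 3) * h ^ (l + 3) := by
    rw [← h4]
    simp only [Finset.sum_range_succ, Finset.sum_range_zero]
    ring
  rw [h5]
  have h6 := (marg_sum hP)
  have h7 : Summable fun l => ∑' n, P n (l + 3) := (summable_nat_add_iff 3).2 h6.summable
  have h8 : ∑' l, ∑' n, P n (l + 3) ≤ 1 := by
    have h9 := h6.summable.sum_add_tsum_nat_add 3
    rw [h6.tsum_eq] at h9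
    have h10 : 0 ≤ ∑ l ∈ Finset.range 3, ∑' n, P n l :=
      Finset.sum_nonneg fun l _ => tsum_nonneg fun n => hP.nonneg n l
    linarith
  have h9 : |∑' l, cf P z (l + 3) * h ^ (l + 3)| ≤ |h| ^ 3 * ∑' l, ∑' n, P n (l + 3) := by
    refine tsum_of_norm_bounded (f := fun l => cf P z (l + 3) * h ^ (l + 3))
      (h7.hasSum.mul_left (|h| ^ 3)) ?_
    intro l
    rw [Real.norm_eq_abs, abs_mul, abs_pow, mul_comm]
    have h10 : |h| ^ (l + 3) ≤ |h| ^ 3 := pow_le_pow_of_le_one (abs_nonneg _) hh (by omega)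
    exact mul_le_mul h10 (cf_abs hP hz _) (abs_nonneg _) (by positivity)
  calc _ ≤ |h| ^ 3 * ∑' l, ∑' n, P n (l + 3) := h9
    _ ≤ |h| ^ 3 * 1 := mul_le_mul_of_nonneg_left h8 (by positivity)
    _ = |h| ^ 3 := mul_one _

/-- A second order criterion. -/
lemma no_product (hρ0 : 0 < ρ) (hρ1 : ρ < 1) (hq0 : 0 < q) (hq1 : q < 1) (hP : IsStationary ρ q P)
    {z : ℝ} (hz : |z| < 1) (hne : cf P z 0 ≠ 0)
    (hpos : cf P z 1 ^ 2 < 2 * cf P z 0 * cf P z 2) : ¬ ProductForm ρ q P := by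
  intro hform
  obtain ⟨β, B, hF⟩ := fac_of_productForm hform
  have h0 : genR P z 0 = cf P z 0 := by
    have := genR_expand hP hz.le (h := 0) (by simp)
    simp only [mul_zero, add_zero, abs_zero, ne_eq, OfNat.ofNat_ne_zero, not_false_eq_true,
      zero_pow] at this
    have h2 := abs_nonpos_iff.1 this
    linarith
  obtain ⟨ε, hε0, hε1, hε⟩ := key_ineq hρ0 hρ1 hq0 hq1 hP hF hz (by rw [h0]; exact hne)
  set c0 := cf P z 0
  set c1 := cf P z 1
  set c2 := cf P z 2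
  set D := 2 * c0 * c2 - c1 ^ 2 with hD
  have hD0 : 0 < D := by linarith
  have a0 : |c0| ≤ 1 := cf_le_one hP hz.le 0
  have a1 : |c1| ≤ 1 := cf_le_one hP hz.le 1
  have a2 : |c2| ≤ 1 := cf_le_one hP hz.le 2
  obtain ⟨h, hh0, hh⟩ := exists_between (show 0 < min ε (D / 8) from lt_min hε0 (by positivity))
  have hh1 : h ≤ ε := (hh.le).trans (min_le_left _ _)
  have hh2 : h < D / 8 := lt_of_lt_of_le hh (min_le_right _ _)
  have hh3 : h ≤ 1 := hh1.trans hε1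
  have e1 := genR_expand hP hz.le (h := h) (by rw [abs_of_pos hh0]; exact hh3)
  have e2 := genR_expand hP hz.le (h := -h) (by rw [abs_neg, abs_of_pos hh0]; exact hh3)
  have e3 := hε h (by rwa [abs_of_pos hh0])
  rw [h0] at e3
  rw [abs_of_pos hh0] at e1
  rw [abs_neg, abs_of_pos hh0] at e2
  set R1 := genR P z h - (c0 + c1 * h + c2 * h ^ 2) with hR1
  set R2 := genR P z (-h) - (c0 + c1 * (-h) + c2 * (-h) ^ 2) with hR2
  have f1 : genR P z h = (c0 + c2 * h ^ 2) + c1 * h + R1 := by rw [hR1]; ring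
  have f2 : genR P z (-h) = (c0 + c2 * h ^ 2) - c1 * h + R2 := by rw [hR2]; ring
  rw [f1, f2] at e3
  have b0 : |(c0 + c2 * h ^ 2) + c1 * h| ≤ 3 := by
    have h2 : |h| ≤ 1 := by rw [abs_of_pos hh0]; exact hh3
    calc |(c0 + c2 * h ^ 2) + c1 * h| ≤ |c0| + |c2 * h ^ 2| + |c1 * h| :=
          (abs_add_le _ _).trans (by gcongr; exact abs_add_le _ _)
      _ ≤ 1 + 1 * 1 ^ 2 + 1 * 1 := by
          rw [abs_mul, abs_mul, abs_pow]
          gcongr
      _ = 3 := by norm_num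
  have b1 : |(c0 + c2 * h ^ 2) - c1 * h| ≤ 3 := by
    have h2 : |h| ≤ 1 := by rw [abs_of_pos hh0]; exact hh3
    calc |(c0 + c2 * h ^ 2) - c1 * h| ≤ |c0| + |c2 * h ^ 2| + |c1 * h| :=
          (abs_sub _ _).trans (by gcongr; exact abs_add_le _ _)
      _ ≤ 1 + 1 * 1 ^ 2 + 1 * 1 := by
          rw [abs_mul, abs_mul, abs_pow]
          gcongr
      _ = 3 := by norm_num
  have g1 : |((c0 + c2 * h ^ 2) + c1 * h) * R2| ≤ 3 * h ^ 3 := by
    rw [abs_mul]
    exact mul_le_mul b0 e2 (abs_nonneg _) (by norm_num)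
  have g2 : |((c0 + c2 * h ^ 2) - c1 * h) * R1| ≤ 3 * h ^ 3 := by
    rw [abs_mul]
    exact mul_le_mul b1 e1 (abs_nonneg _) (by norm_num)
  have g3 : |R1 * R2| ≤ h ^ 3 := by
    rw [abs_mul]
    have h5 : h ^ 3 ≤ 1 := pow_le_one₀ hh0.le hh3
    calc |R1| * |R2| ≤ h ^ 3 * 1 := mul_le_mul e1 (e2.trans h5) (abs_nonneg _) (by positivity)
      _ = h ^ 3 := mul_one _
  rw [abs_le] at g1 g2 g3
  have k1 : h ^ 3 * 7 < D * h ^ 2 := by
    have : h * 8 < D := by linarith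
    have h6 : 0 < h ^ 2 := by positivity
    nlinarith
  have k2 : ((c0 + c2 * h ^ 2) + c1 * h + R1) * ((c0 + c2 * h ^ 2) - c1 * h + R2) =
      c0 ^ 2 + D * h ^ 2 + (c2 * h ^ 2) ^ 2 + ((c0 + c2 * h ^ 2) + c1 * h) * R2 +
        ((c0 + c2 * h ^ 2) - c1 * h) * R1 + R1 * R2 := by
    rw [hD]; ring
  rw [k2] at e3
  have k3 := sq_nonneg (c2 * h ^ 2)
  linarith [g1.1, g2.1, g3.1]

end

lemma cf_eq {θ : ℝ} {P : ℕ → ℕ → ℝ} (h0 : 0 < θ) (hP0 : 0 < P 0 0) (l : ℕ) :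
    cf P (-24 / 5 * θ) l = P 0 0 / θ ^ l * C θ P l := by
  unfold cf C
  rw [← tsum_mul_left]
  congr 1
  funext n
  unfold V
  rw [mul_pow, pow_add]
  field_simp

/-- The product form fails for `q = 3/5` and `ρ = 1 - θ`, `0 < θ ≤ 10⁻¹²`. -/
theorem no_form {θ : ℝ} (h0 : 0 < θ) (h1 : θ ≤ 1 / 10 ^ 12) {P : ℕ → ℕ → ℝ}
    (hP : IsStationary (1 - θ) (3 / 5) P) : ¬ ProductForm (1 - θ) (3 / 5) P := by
  have h1' : θ < 1 := by norm_num at h1; linarith
  have hP0 := P00_pos (by linarith) (by linarith) (by norm_num) (by norm_num) hP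
  obtain ⟨b0, b1, b2⟩ := C_bounds h0 h1 hP
  have hz : |(-24 / 5 * θ : ℝ)| < 1 := by
    rw [abs_mul, abs_of_pos h0, abs_of_neg (by norm_num : (-24 / 5 : ℝ) < 0)]
    norm_num at h1 ⊢
    linarith
  apply no_product (by linarith) (by linarith) (by norm_num) (by norm_num) hP hz
  · rw [cf_eq h0 hP0]
    apply mul_ne_zero
    · positivity
    · linarith
  · rw [cf_eq h0 hP0, cf_eq h0 hP0, cf_eq h0 hP0]
    have h3 : C θ P 1 ^ 2 ≤ (3 / 1000) ^ 2 := by
      rw [← sq_abs]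
      exact pow_le_pow_left₀ (abs_nonneg _) b1 2
    have h4 : (3 / 1000 : ℝ) * (9 / 1000) ≤ C θ P 0 * C θ P 2 := by nlinarith
    have h5 : C θ P 1 ^ 2 < 2 * C θ P 0 * C θ P 2 := by nlinarith
    have h6 : 0 < (P 0 0 / θ) ^ 2 := by positivity
    calc (P 0 0 / θ ^ 1 * C θ P 1) ^ 2 = (P 0 0 / θ) ^ 2 * C θ P 1 ^ 2 := by
          rw [pow_one]; ring
      _ < (P 0 0 / θ) ^ 2 * (2 * C θ P 0 * C θ P 2) := mul_lt_mul_of_pos_left h5 h6
      _ = 2 * (P 0 0 / θ ^ 0 * C θ P 0) * (P 0 0 / θ ^ 2 * C θ P 2) := by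
          rw [pow_zero, div_one]
          field_simp

end Pool.Agent.Q290.Late
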