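import Pool.Agent.Q290.Late.Cut

/-! Numerical certificates at `q = 3/5`, `x = -24/5`. -/

open Filter Topology

namespace Pool.Agent.Q290.Late

/-- The balance equations of the scaled variables up to an error. -/
def Approx (v e : ℕ → ℕ → ℝ) : Prop :=
  ∀ s ≤ 5, ∀ n ≤ s, v n (s - n) = (∑ i ∈ Finset.range (n + 1), (v (i + 1) (s - i) +
    (if s - i = 0 then 0 else v (i + 1) (s - i - 1))) * bin (3 / 5) (s - i) (n - i)) + e n (s - n)

section

variable {v e : ℕ → ℕ → ℝ}

lemma eqn_0_0 (h : Approx v e) :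
    (1) * v 0 0 + (-1) * v 1 0 = e 0 0 := by
  have := h 0 (by norm_num) 0 (by norm_num)
  simp [Finset.sum_range_succ, bin, Nat.choose] at this
  norm_num at this
  linarith

lemma eqn_0_1 (h : Approx v e) :
    (1) * v 0 1 + (-3/5) * v 1 0 + (-3/5) * v 1 1 = e 0 1 := by
  have := h 1 (by norm_num) 0 (by norm_num)
  simp [Finset.sum_range_succ, bin, Nat.choose] at this
  norm_num at this
  linarith

lemma eqn_1_0 (h : Approx v e) :
    (3/5) * v 1 0 + (-2/5) * v 1 1 + (-1) * v 2 0 = e 1 0 := by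
  have := h 1 (by norm_num) 1 (by norm_num)
  simp [Finset.sum_range_succ, bin, Nat.choose] at this
  norm_num at this
  linarith

lemma eqn_0_2 (h : Approx v e) :
    (1) * v 0 2 + (-9/25) * v 1 1 + (-9/25) * v 1 2 = e 0 2 := by
  have := h 2 (by norm_num) 0 (by norm_num)
  simp [Finset.sum_range_succ, bin, Nat.choose] at this
  norm_num at this
  linarith

lemma eqn_1_1 (h : Approx v e) :
    (13/25) * v 1 1 + (-3/5) * v 2 0 + (-12/25) * v 1 2 + (-3/5) * v 2 1 = e 1 1 := by
  have := h 2 (by norm_num) 1 (by norm_num)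
  simp [Finset.sum_range_succ, bin, Nat.choose] at this
  norm_num at this
  linarith

lemma eqn_2_0 (h : Approx v e) :
    (-4/25) * v 1 1 + (3/5) * v 2 0 + (-4/25) * v 1 2 + (-2/5) * v 2 1 + (-1) * v 3 0 = e 2 0 := by
  have := h 2 (by norm_num) 2 (by norm_num)
  simp [Finset.sum_range_succ, bin, Nat.choose] at this
  norm_num at this
  linarith

lemma eqn_0_3 (h : Approx v e) :
    (1) * v 0 3 + (-27/125) * v 1 2 + (-27/125) * v 1 3 = e 0 3 := by
  have := h 3 (by norm_num) 0 (by norm_num)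
  simp [Finset.sum_range_succ, bin, Nat.choose] at this
  norm_num at this
  linarith

lemma eqn_1_2 (h : Approx v e) :
    (71/125) * v 1 2 + (-9/25) * v 2 1 + (-54/125) * v 1 3 + (-9/25) * v 2 2 = e 1 2 := by
  have := h 3 (by norm_num) 1 (by norm_num)
  simp [Finset.sum_range_succ, bin, Nat.choose] at this
  norm_num at this
  linarith

lemma eqn_2_1 (h : Approx v e) :
    (-36/125) * v 1 2 + (13/25) * v 2 1 + (-3/5) * v 3 0 + (-36/125) * v 1 3 + (-12/25) * v 2 2 + (-3/5) * v 3 1 = e 2 1 := by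
  have := h 3 (by norm_num) 2 (by norm_num)
  simp [Finset.sum_range_succ, bin, Nat.choose] at this
  norm_num at this
  linarith

lemma eqn_3_0 (h : Approx v e) :
    (-8/125) * v 1 2 + (-4/25) * v 2 1 + (3/5) * v 3 0 + (-8/125) * v 1 3 + (-4/25) * v 2 2 + (-2/5) * v 3 1 + (-1) * v 4 0 = e 3 0 := by
  have := h 3 (by norm_num) 3 (by norm_num)
  simp [Finset.sum_range_succ, bin, Nat.choose] at this
  norm_num at this
  linarith

lemma eqn_0_4 (h : Approx v e) :
    (1) * v 0 4 + (-81/625) * v 1 3 + (-81/625) * v 1 4 = e 0 4 := by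
  have := h 4 (by norm_num) 0 (by norm_num)
  simp [Finset.sum_range_succ, bin, Nat.choose] at this
  norm_num at this
  linarith

lemma eqn_1_3 (h : Approx v e) :
    (409/625) * v 1 3 + (-27/125) * v 2 2 + (-216/625) * v 1 4 + (-27/125) * v 2 3 = e 1 3 := by
  have := h 4 (by norm_num) 1 (by norm_num)
  simp [Finset.sum_range_succ, bin, Nat.choose] at this
  norm_num at this
  linarith

lemma eqn_2_2 (h : Approx v e) :
    (-216/625) * v 1 3 + (71/125) * v 2 2 + (-9/25) * v 3 1 + (-216/625) * v 1 4 + (-54/125) * v 2 3 + (-9/25) * v 3 2 = e 2 2 := by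
  have := h 4 (by norm_num) 2 (by norm_num)
  simp [Finset.sum_range_succ, bin, Nat.choose] at this
  norm_num at this
  linarith

lemma eqn_3_1 (h : Approx v e) :
    (-96/625) * v 1 3 + (-36/125) * v 2 2 + (13/25) * v 3 1 + (-3/5) * v 4 0 + (-96/625) * v 1 4 + (-36/125) * v 2 3 + (-12/25) * v 3 2 + (-3/5) * v 4 1 = e 3 1 := by
  have := h 4 (by norm_num) 3 (by norm_num)
  simp [Finset.sum_range_succ, bin, Nat.choose] at this
  norm_num at this
  linarith

lemma eqn_4_0 (h : Approx v e) :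
    (-16/625) * v 1 3 + (-8/125) * v 2 2 + (-4/25) * v 3 1 + (3/5) * v 4 0 + (-16/625) * v 1 4 + (-8/125) * v 2 3 + (-4/25) * v 3 2 + (-2/5) * v 4 1 + (-1) * v 5 0 = e 4 0 := by
  have := h 4 (by norm_num) 4 (by norm_num)
  simp [Finset.sum_range_succ, bin, Nat.choose] at this
  norm_num at this
  linarith

lemma eqn_0_5 (h : Approx v e) :
    (1) * v 0 5 + (-243/3125) * v 1 4 + (-243/3125) * v 1 5 = e 0 5 := by
  have := h 5 (by norm_num) 0 (by norm_num)
  simp [Finset.sum_range_succ, bin, Nat.choose] at this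
  norm_num at this
  linarith

lemma eqn_1_4 (h : Approx v e) :
    (463/625) * v 1 4 + (-81/625) * v 2 3 + (-162/625) * v 1 5 + (-81/625) * v 2 4 = e 1 4 := by
  have := h 5 (by norm_num) 1 (by norm_num)
  simp [Finset.sum_range_succ, bin, Nat.choose] at this
  norm_num at this
  linarith

lemma eqn_2_3 (h : Approx v e) :
    (-216/625) * v 1 4 + (409/625) * v 2 3 + (-27/125) * v 3 2 + (-216/625) * v 1 5 + (-216/625) * v 2 4 + (-27/125) * v 3 3 = e 2 3 := by
  have := h 5 (by norm_num) 2 (by norm_num)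
  simp [Finset.sum_range_succ, bin, Nat.choose] at this
  norm_num at this
  linarith

lemma eqn_3_2 (h : Approx v e) :
    (-144/625) * v 1 4 + (-216/625) * v 2 3 + (71/125) * v 3 2 + (-9/25) * v 4 1 + (-144/625) * v 1 5 + (-216/625) * v 2 4 + (-54/125) * v 3 3 + (-9/25) * v 4 2 = e 3 2 := by
  have := h 5 (by norm_num) 3 (by norm_num)
  simp [Finset.sum_range_succ, bin, Nat.choose] at this
  norm_num at this
  linarith

lemma eqn_4_1 (h : Approx v e) :
    (-48/625) * v 1 4 + (-96/625) * v 2 3 + (-36/125) * v 3 2 + (13/25) * v 4 1 + (-3/5) * v 5 0 + (-48/625) * v 1 5 + (-96/625) * v 2 4 + (-36/125) * v 3 3 + (-12/25) * v 4 2 + (-3/5) * v 5 1 = e 4 1 := by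
  have := h 5 (by norm_num) 4 (by norm_num)
  simp [Finset.sum_range_succ, bin, Nat.choose] at this
  norm_num at this
  linarith

lemma eqn_5_0 (h : Approx v e) :
    (-32/3125) * v 1 4 + (-16/625) * v 2 3 + (-8/125) * v 3 2 + (-4/25) * v 4 1 + (3/5) * v 5 0 + (-32/3125) * v 1 5 + (-16/625) * v 2 4 + (-8/125) * v 3 3 + (-4/25) * v 4 2 + (-2/5) * v 5 1 + (-1) * v 6 0 = e 5 0 := by
  have := h 5 (by norm_num) 5 (by norm_num)
  simp [Finset.sum_range_succ, bin, Nat.choose] at this
  norm_num at this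
  linarith

lemma cert_c0 (h : Approx v e) :
    ((1) * v 0 0 + (-24/5) * v 1 0 + (576/25) * v 2 0 + (-13824/125) * v 3 0 + (331776/625) * v 4 0 + (-7962624/3125) * v 5 0 + (191102976/15625) * v 6 0) + (1/200) * v 0 0 =
      ((201/200) * e 0 0 + (-253/40) * e 1 0 + (2891/540) * e 1 1 + (35869/1080) * e 2 0 + (-20119633/984150) * e 1 2 + (-31430851/984150) * e 2 1 + (-633413341/3936600) * e 3 0 + (10220847332624/145282683375) * e 1 3 + (14132877242903/145282683375) * e 2 2 + (80949367368023/581130733500) * e 3 1 + (878506426231183/1162261467000) * e 4 0 + (-86382847433248889751142/10423238562291605625) * e 1 4 + (-95887650106930000602724/10423238562291605625) * e 2 3 + (-197401405380307475113067/20846477124583211250) * e 3 2 + (-101364219334023904945483/10423238562291605625) * e 4 1 + (-211996940455149339936901/16677181699666569000) * e 5 0) + ((-87411400295230533240232/10423238562291605625) * v 1 5 + (-97406446891009657258204/10423238562291605625) * v 2 4 + (-101023208771648152976386/10423238562291605625)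 * v 3 3 + (-105386772294301753887874/10423238562291605625) * v 4 2 + (-2276355334284033559030301/208464771245832112500) * v 5 1 + (-1003145124101511143237873/2084647712458321125000) * v 6 0) := by
  linear_combination (201/200) * eqn_0_0 h + (-253/40) * eqn_1_0 h + (2891/540) * eqn_1_1 h + (35869/1080) * eqn_2_0 h + (-20119633/984150) * eqn_1_2 h + (-31430851/984150) * eqn_2_1 h + (-633413341/3936600) * eqn_3_0 h + (10220847332624/145282683375) * eqn_1_3 h + (14132877242903/145282683375) * eqn_2_2 h + (80949367368023/581130733500) * eqn_3_1 h + (878506426231183/1162261467000) * eqn_4_0 h + (-86382847433248889751142/10423238562291605625) * eqn_1_4 h + (-95887650106930000602724/10423238562291605625) * eqn_2_3 h + (-197401405380307475113067/20846477124583211250) * eqn_3_2 h + (-101364219334023904945483/10423238562291605625) * eqn_4_1 h + (-211996940455149339936901/16677181699666569000) * eqn_5_0 h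

lemma bound_c0 (h : Approx v e) (hv : ∀ n l, 0 ≤ v n l) (h0 : v 0 0 = 1)
    (he : ∀ n l, n + l ≤ 5 → |e n l| ≤ 1 / 10 ^ 11) :
    (1) * v 0 0 + (-24/5) * v 1 0 + (576/25) * v 2 0 + (-13824/125) * v 3 0 + (331776/625) * v 4 0 + (-7962624/3125) * v 5 0 + (191102976/15625) * v 6 0 ≤ -(49/10000) := by
  have h1 := cert_c0 h

  have t0 := hv 1 5

  have t1 := hv 2 4

  have t2 := hv 3 3

  have t3 := hv 4 2

  have t4 := hv 5 1

  have t5 := hv 6 0

  have e0 := abs_le.1 (he 0 0 (by norm_num))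
  obtain ⟨e0a, e0b⟩ := e0

  have e2 := abs_le.1 (he 1 0 (by norm_num))
  obtain ⟨e2a, e2b⟩ := e2

  have e4 := abs_le.1 (he 1 1 (by norm_num))
  obtain ⟨e4a, e4b⟩ := e4

  have e5 := abs_le.1 (he 2 0 (by norm_num))
  obtain ⟨e5a, e5b⟩ := e5

  have e7 := abs_le.1 (he 1 2 (by norm_num))
  obtain ⟨e7a, e7b⟩ := e7

  have e8 := abs_le.1 (he 2 1 (by norm_num))
  obtain ⟨e8a, e8b⟩ := e8

  have e9 := abs_le.1 (he 3 0 (by norm_num))
  obtain ⟨e9a, e9b⟩ := e9

  have e11 := abs_le.1 (he 1 3 (by norm_num))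
  obtain ⟨e11a, e11b⟩ := e11

  have e12 := abs_le.1 (he 2 2 (by norm_num))
  obtain ⟨e12a, e12b⟩ := e12

  have e13 := abs_le.1 (he 3 1 (by norm_num))
  obtain ⟨e13a, e13b⟩ := e13

  have e14 := abs_le.1 (he 4 0 (by norm_num))
  obtain ⟨e14a, e14b⟩ := e14

  have e16 := abs_le.1 (he 1 4 (by norm_num))
  obtain ⟨e16a, e16b⟩ := e16

  have e17 := abs_le.1 (he 2 3 (by norm_num))
  obtain ⟨e17a, e17b⟩ := e17

  have e18 := abs_le.1 (he 3 2 (by norm_num))
  obtain ⟨e18a, e18b⟩ := e18

  have e19 := abs_le.1 (he 4 1 (by norm_num))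
  obtain ⟨e19a, e19b⟩ := e19

  have e20 := abs_le.1 (he 5 0 (by norm_num))
  obtain ⟨e20a, e20b⟩ := e20

  rw [h0] at h1
  norm_num at h1 ⊢
  linarith

lemma cert_c1u (h : Approx v e) :
    ((1) * v 0 1 + (-24/5) * v 1 1 + (576/25) * v 2 1 + (-13824/125) * v 3 1 + (331776/625) * v 4 1 + (-7962624/3125) * v 5 1) + (1/1000) * v 0 0 =
      ((1/1000) * e 0 0 + (1) * e 0 1 + (601/600) * e 1 0 + (-3179/324) * e 1 1 + (-26381/3240) * e 2 0 + (2505929/118098) * e 1 2 + (6352241/118098) * e 2 1 + (18998381/472392) * e 3 0 + (-1575295005868/17433922005) * e 1 3 + (-414841833707/3486784401) * e 2 2 + (-18274399647859/69735688020) * e 3 1 + (-27200170965143/139471376040) * e 4 0 + (-851706517173034055098/1250788627474992675) * e 1 4 + (-883271563533276275524/1250788627474992675) * e 2 3 + (-1563186559624624349261/2501577254949985350) * e 3 2 + (12951023120000956486/250157725494998535) * e 4 1 + (-546879687644887595947/2001261803959988280) * e 5 0) + ((-3523134551999771731304/6253943137374963375)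 * v 1 5 + (-684562143732018048868/1250788627474992675) * v 2 4 + (-2658303344075503307258/6253943137374963375) * v 3 3 + (-7624477350222971172382/31269715686874816875) * v 4 2 + (-1642462953325119286569047/625394313737496337500) * v 5 1 + (-546879687644887595947/2001261803959988280) * v 6 0) := by
  linear_combination (1/1000) * eqn_0_0 h + (1) * eqn_0_1 h + (601/600) * eqn_1_0 h + (-3179/324) * eqn_1_1 h + (-26381/3240) * eqn_2_0 h + (2505929/118098) * eqn_1_2 h + (6352241/118098) * eqn_2_1 h + (18998381/472392) * eqn_3_0 h + (-1575295005868/17433922005) * eqn_1_3 h + (-414841833707/3486784401) * eqn_2_2 h + (-18274399647859/69735688020) * eqn_3_1 h + (-27200170965143/139471376040) * eqn_4_0 h + (-851706517173034055098/1250788627474992675) * eqn_1_4 h + (-883271563533276275524/1250788627474992675) * eqn_2_3 h + (-1563186559624624349261/2501577254949985350) * eqn_3_2 h + (12951023120000956486/250157725494998535) * eqn_4_1 h + (-546879687644887595947/2001261803959988280)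 * eqn_5_0 h

lemma bound_c1u (h : Approx v e) (hv : ∀ n l, 0 ≤ v n l) (h0 : v 0 0 = 1)
    (he : ∀ n l, n + l ≤ 5 → |e n l| ≤ 1 / 10 ^ 11) :
    (1) * v 0 1 + (-24/5) * v 1 1 + (576/25) * v 2 1 + (-13824/125) * v 3 1 + (331776/625) * v 4 1 + (-7962624/3125) * v 5 1 ≤ 0 := by
  have h1 := cert_c1u h

  have t0 := hv 1 5

  have t1 := hv 2 4

  have t2 := hv 3 3

  have t3 := hv 4 2

  have t4 := hv 5 1

  have t5 := hv 6 0

  have e0 := abs_le.1 (he 0 0 (by norm_num))
  obtain ⟨e0a, e0b⟩ := e0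

  have e1 := abs_le.1 (he 0 1 (by norm_num))
  obtain ⟨e1a, e1b⟩ := e1

  have e2 := abs_le.1 (he 1 0 (by norm_num))
  obtain ⟨e2a, e2b⟩ := e2

  have e4 := abs_le.1 (he 1 1 (by norm_num))
  obtain ⟨e4a, e4b⟩ := e4

  have e5 := abs_le.1 (he 2 0 (by norm_num))
  obtain ⟨e5a, e5b⟩ := e5

  have e7 := abs_le.1 (he 1 2 (by norm_num))
  obtain ⟨e7a, e7b⟩ := e7

  have e8 := abs_le.1 (he 2 1 (by norm_num))
  obtain ⟨e8a, e8b⟩ := e8

  have e9 := abs_le.1 (he 3 0 (by norm_num))
  obtain ⟨e9a, e9b⟩ := e9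

  have e11 := abs_le.1 (he 1 3 (by norm_num))
  obtain ⟨e11a, e11b⟩ := e11

  have e12 := abs_le.1 (he 2 2 (by norm_num))
  obtain ⟨e12a, e12b⟩ := e12

  have e13 := abs_le.1 (he 3 1 (by norm_num))
  obtain ⟨e13a, e13b⟩ := e13

  have e14 := abs_le.1 (he 4 0 (by norm_num))
  obtain ⟨e14a, e14b⟩ := e14

  have e16 := abs_le.1 (he 1 4 (by norm_num))
  obtain ⟨e16a, e16b⟩ := e16

  have e17 := abs_le.1 (he 2 3 (by norm_num))
  obtain ⟨e17a, e17b⟩ := e17

  have e18 := abs_le.1 (he 3 2 (by norm_num))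
  obtain ⟨e18a, e18b⟩ := e18

  have e19 := abs_le.1 (he 4 1 (by norm_num))
  obtain ⟨e19a, e19b⟩ := e19

  have e20 := abs_le.1 (he 5 0 (by norm_num))
  obtain ⟨e20a, e20b⟩ := e20

  rw [h0] at h1
  norm_num at h1 ⊢
  linarith

lemma cert_c1l (h : Approx v e) :
    ((-1) * v 0 1 + (24/5) * v 1 1 + (-576/25) * v 2 1 + (13824/125) * v 3 1 + (-331776/625) * v 4 1 + (7962624/3125) * v 5 1) + (-21/10000) * v 0 0 =
      ((-21/10000) * e 0 0 + (-1) * e 0 1 + (-2007/2000) * e 1 0 + (1177/120) * e 1 1 + (9763/1200) * e 2 0 + (-186011/8748) * e 1 2 + (-471077/8748) * e 2 1 + (-7049131/174960) * e 3 0 + (56112738284/645700815) * e 1 3 + (29658883337/258280326) * e 2 2 + (1331030322709/5165606520) * e 3 1 + (1968320418053/10331213040) * e 4 0 + (-78211275703899384001/46325504721296025) * e 1 4 + (-88517611418709218638/46325504721296025) * e 2 3 + (-377969321085964373689/185302018885184100) * e 3 2 + (-50625192070293062911/18530201888518410) * e 4 1 + (-357929458854271806503/148241615108147280)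 * e 5 0) + ((-2087512330228452801964/1158137618032400625) * v 1 5 + (-478439633025926493122/231627523606480125) * v 2 4 + (-517746091057108925051/231627523606480125) * v 3 3 + (-2816598558120051486259/1158137618032400625) * v 4 2 + (-2639746236333957453103/46325504721296025000) * v 5 1 + (-357929458854271806503/148241615108147280) * v 6 0) := by
  linear_combination (-21/10000) * eqn_0_0 h + (-1) * eqn_0_1 h + (-2007/2000) * eqn_1_0 h + (1177/120) * eqn_1_1 h + (9763/1200) * eqn_2_0 h + (-186011/8748) * eqn_1_2 h + (-471077/8748) * eqn_2_1 h + (-7049131/174960) * eqn_3_0 h + (56112738284/645700815) * eqn_1_3 h + (29658883337/258280326) * eqn_2_2 h + (1331030322709/5165606520) * eqn_3_1 h + (1968320418053/10331213040) * eqn_4_0 h + (-78211275703899384001/46325504721296025) * eqn_1_4 h + (-88517611418709218638/46325504721296025) * eqn_2_3 h + (-377969321085964373689/185302018885184100) * eqn_3_2 h + (-50625192070293062911/18530201888518410) * eqn_4_1 h + (-357929458854271806503/148241615108147280)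 * eqn_5_0 h

lemma bound_c1l (h : Approx v e) (hv : ∀ n l, 0 ≤ v n l) (h0 : v 0 0 = 1)
    (he : ∀ n l, n + l ≤ 5 → |e n l| ≤ 1 / 10 ^ 11) :
    (-1) * v 0 1 + (24/5) * v 1 1 + (-576/25) * v 2 1 + (13824/125) * v 3 1 + (-331776/625) * v 4 1 + (7962624/3125) * v 5 1 ≤ 22/10000 := by
  have h1 := cert_c1l h

  have t0 := hv 1 5

  have t1 := hv 2 4

  have t2 := hv 3 3

  have t3 := hv 4 2

  have t4 := hv 5 1

  have t5 := hv 6 0

  have e0 := abs_le.1 (he 0 0 (by norm_num))
  obtain ⟨e0a, e0b⟩ := e0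

  have e1 := abs_le.1 (he 0 1 (by norm_num))
  obtain ⟨e1a, e1b⟩ := e1

  have e2 := abs_le.1 (he 1 0 (by norm_num))
  obtain ⟨e2a, e2b⟩ := e2

  have e4 := abs_le.1 (he 1 1 (by norm_num))
  obtain ⟨e4a, e4b⟩ := e4

  have e5 := abs_le.1 (he 2 0 (by norm_num))
  obtain ⟨e5a, e5b⟩ := e5

  have e7 := abs_le.1 (he 1 2 (by norm_num))
  obtain ⟨e7a, e7b⟩ := e7

  have e8 := abs_le.1 (he 2 1 (by norm_num))
  obtain ⟨e8a, e8b⟩ := e8

  have e9 := abs_le.1 (he 3 0 (by norm_num))
  obtain ⟨e9a, e9b⟩ := e9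

  have e11 := abs_le.1 (he 1 3 (by norm_num))
  obtain ⟨e11a, e11b⟩ := e11

  have e12 := abs_le.1 (he 2 2 (by norm_num))
  obtain ⟨e12a, e12b⟩ := e12

  have e13 := abs_le.1 (he 3 1 (by norm_num))
  obtain ⟨e13a, e13b⟩ := e13

  have e14 := abs_le.1 (he 4 0 (by norm_num))
  obtain ⟨e14a, e14b⟩ := e14

  have e16 := abs_le.1 (he 1 4 (by norm_num))
  obtain ⟨e16a, e16b⟩ := e16

  have e17 := abs_le.1 (he 2 3 (by norm_num))
  obtain ⟨e17a, e17b⟩ := e17

  have e18 := abs_le.1 (he 3 2 (by norm_num))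
  obtain ⟨e18a, e18b⟩ := e18

  have e19 := abs_le.1 (he 4 1 (by norm_num))
  obtain ⟨e19a, e19b⟩ := e19

  have e20 := abs_le.1 (he 5 0 (by norm_num))
  obtain ⟨e20a, e20b⟩ := e20

  rw [h0] at h1
  norm_num at h1 ⊢
  linarith

lemma cert_c2 (h : Approx v e) :
    ((1) * v 0 2 + (-24/5) * v 1 2 + (576/25) * v 2 2 + (-13824/125) * v 3 2 + (331776/625) * v 4 2) + (49/5000) * v 0 0 =
      ((49/5000) * e 0 0 + (49/3000) * e 1 0 + (1) * e 0 2 + (1669/1620) * e 1 1 + (17131/16200) * e 2 0 + (-1295669/118098) * e 1 2 + (-861617/118098) * e 2 1 + (-13069507/2361960) * e 3 0 + (99010164890/3486784401) * e 1 3 + (199509613220/3486784401) * e 2 2 + (485531319725/13947137604) * e 3 1 + (713815533169/27894275208) * e 4 0 + (-27724812503216425514/50031545098999707) * e 1 4 + (-31131836019851627456/50031545098999707) * e 2 3 + (-75862633796673332155/100063090197999414) * e 3 2 + (-32657522580101545865/50031545098999707) * e 4 1 + (-244189392806483373115/400252360791997656) * e 5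 0) + ((-18440918437259553278936/31269715686874816875) * v 1 5 + (-4157370359278383403828/6253943137374963375) * v 2 4 + (-4308710890736312933752/6253943137374963375) * v 3 3 + (-4784904579471529001243/31269715686874816875) * v 4 2 + (-127215932753540384699/200126180395998828) * v 5 1 + (-244189392806483373115/400252360791997656) * v 6 0) := by
  linear_combination (49/5000) * eqn_0_0 h + (49/3000) * eqn_1_0 h + (1) * eqn_0_2 h + (1669/1620) * eqn_1_1 h + (17131/16200) * eqn_2_0 h + (-1295669/118098) * eqn_1_2 h + (-861617/118098) * eqn_2_1 h + (-13069507/2361960) * eqn_3_0 h + (99010164890/3486784401) * eqn_1_3 h + (199509613220/3486784401) * eqn_2_2 h + (485531319725/13947137604) * eqn_3_1 h + (713815533169/27894275208) * eqn_4_0 h + (-27724812503216425514/50031545098999707) * eqn_1_4 h + (-31131836019851627456/50031545098999707) * eqn_2_3 h + (-75862633796673332155/100063090197999414) * eqn_3_2 h + (-32657522580101545865/50031545098999707) * eqn_4_1 h + (-244189392806483373115/400252360791997656)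 * eqn_5_0 h

lemma bound_c2 (h : Approx v e) (hv : ∀ n l, 0 ≤ v n l) (h0 : v 0 0 = 1)
    (he : ∀ n l, n + l ≤ 5 → |e n l| ≤ 1 / 10 ^ 11) :
    (1) * v 0 2 + (-24/5) * v 1 2 + (576/25) * v 2 2 + (-13824/125) * v 3 2 + (331776/625) * v 4 2 ≤ -(97/10000) := by
  have h1 := cert_c2 h

  have t0 := hv 1 5

  have t1 := hv 2 4

  have t2 := hv 3 3

  have t3 := hv 4 2

  have t4 := hv 5 1

  have t5 := hv 6 0

  have e0 := abs_le.1 (he 0 0 (by norm_num))
  obtain ⟨e0a, e0b⟩ := e0

  have e2 := abs_le.1 (he 1 0 (by norm_num))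
  obtain ⟨e2a, e2b⟩ := e2

  have e3 := abs_le.1 (he 0 2 (by norm_num))
  obtain ⟨e3a, e3b⟩ := e3

  have e4 := abs_le.1 (he 1 1 (by norm_num))
  obtain ⟨e4a, e4b⟩ := e4

  have e5 := abs_le.1 (he 2 0 (by norm_num))
  obtain ⟨e5a, e5b⟩ := e5

  have e7 := abs_le.1 (he 1 2 (by norm_num))
  obtain ⟨e7a, e7b⟩ := e7

  have e8 := abs_le.1 (he 2 1 (by norm_num))
  obtain ⟨e8a, e8b⟩ := e8

  have e9 := abs_le.1 (he 3 0 (by norm_num))
  obtain ⟨e9a, e9b⟩ := e9

  have e11 := abs_le.1 (he 1 3 (by norm_num))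
  obtain ⟨e11a, e11b⟩ := e11

  have e12 := abs_le.1 (he 2 2 (by norm_num))
  obtain ⟨e12a, e12b⟩ := e12

  have e13 := abs_le.1 (he 3 1 (by norm_num))
  obtain ⟨e13a, e13b⟩ := e13

  have e14 := abs_le.1 (he 4 0 (by norm_num))
  obtain ⟨e14a, e14b⟩ := e14

  have e16 := abs_le.1 (he 1 4 (by norm_num))
  obtain ⟨e16a, e16b⟩ := e16

  have e17 := abs_le.1 (he 2 3 (by norm_num))
  obtain ⟨e17a, e17b⟩ := e17

  have e18 := abs_le.1 (he 3 2 (by norm_num))
  obtain ⟨e18a, e18b⟩ := e18

  have e19 := abs_le.1 (he 4 1 (by norm_num))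
  obtain ⟨e19a, e19b⟩ := e19

  have e20 := abs_le.1 (he 5 0 (by norm_num))
  obtain ⟨e20a, e20b⟩ := e20

  rw [h0] at h1
  norm_num at h1 ⊢
  linarith

lemma cert_v05 (h : Approx v e) :
    (v 0 5) + (-1/2100000) * v 0 0 =
      ((-1/2100000) * e 0 0 + (-1/1260000) * e 1 0 + (-1/680400) * e 1 1 + (-19/6804000) * e 2 0 + (-949/49601160) * e 1 2 + (-1327/49601160) * e 2 1 + (-4451/141717600) * e 3 0 + (-109547404/73222472421) * e 1 3 + (-525342133/292889889684) * e 2 2 + (-2221747573/1171559558736) * e 3 1 + (-22830738961/11715595587360) * e 4 0 + (1) * e 0 5 + (-53883077608061341/2101324894157987694) * e 1 4 + (-139609215407706218/1050662447078993847) * e 2 3 + (-184338480072867997/1200757082375992968) * e 3 2 + (-673634355894609287/4202649788315975388) * e 4 1 + (-785467651979204215/4803028329503971872) * e 5 0) + ((-11334171684975696937/469045735303122253125) * v 1 5 + (-86094189228360916472/656664029424371154375) * v 2 4 + (-5690491312418906201/37523658824249780250)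 * v 3 3 + (-8319705587478934051/52533122353949692350) * v 4 2 + (-13581885834589740949/84052995766319507760) * v 5 1 + (-785467651979204215/4803028329503971872) * v 6 0) := by
  linear_combination (-1/2100000) * eqn_0_0 h + (-1/1260000) * eqn_1_0 h + (-1/680400) * eqn_1_1 h + (-19/6804000) * eqn_2_0 h + (-949/49601160) * eqn_1_2 h + (-1327/49601160) * eqn_2_1 h + (-4451/141717600) * eqn_3_0 h + (-109547404/73222472421) * eqn_1_3 h + (-525342133/292889889684) * eqn_2_2 h + (-2221747573/1171559558736) * eqn_3_1 h + (-22830738961/11715595587360) * eqn_4_0 h + (1) * eqn_0_5 h + (-53883077608061341/2101324894157987694) * eqn_1_4 h + (-139609215407706218/1050662447078993847) * eqn_2_3 h + (-184338480072867997/1200757082375992968) * eqn_3_2 h + (-673634355894609287/4202649788315975388) * eqn_4_1 h + (-785467651979204215/4803028329503971872) * eqn_5_0 h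

lemma bound_v05 (h : Approx v e) (hv : ∀ n l, 0 ≤ v n l) (h0 : v 0 0 = 1)
    (he : ∀ n l, n + l ≤ 5 → |e n l| ≤ 1 / 10 ^ 11) :
    v 0 5 ≤ 1/2000000 := by
  have h1 := cert_v05 h

  have t0 := hv 1 5

  have t1 := hv 2 4

  have t2 := hv 3 3

  have t3 := hv 4 2

  have t4 := hv 5 1

  have t5 := hv 6 0

  have e0 := abs_le.1 (he 0 0 (by norm_num))
  obtain ⟨e0a, e0b⟩ := e0

  have e2 := abs_le.1 (he 1 0 (by norm_num))
  obtain ⟨e2a, e2b⟩ := e2

  have e4 := abs_le.1 (he 1 1 (by norm_num))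
  obtain ⟨e4a, e4b⟩ := e4

  have e5 := abs_le.1 (he 2 0 (by norm_num))
  obtain ⟨e5a, e5b⟩ := e5

  have e7 := abs_le.1 (he 1 2 (by norm_num))
  obtain ⟨e7a, e7b⟩ := e7

  have e8 := abs_le.1 (he 2 1 (by norm_num))
  obtain ⟨e8a, e8b⟩ := e8

  have e9 := abs_le.1 (he 3 0 (by norm_num))
  obtain ⟨e9a, e9b⟩ := e9

  have e11 := abs_le.1 (he 1 3 (by norm_num))
  obtain ⟨e11a, e11b⟩ := e11

  have e12 := abs_le.1 (he 2 2 (by norm_num))
  obtain ⟨e12a, e12b⟩ := e12

  have e13 := abs_le.1 (he 3 1 (by norm_num))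
  obtain ⟨e13a, e13b⟩ := e13

  have e14 := abs_le.1 (he 4 0 (by norm_num))
  obtain ⟨e14a, e14b⟩ := e14

  have e15 := abs_le.1 (he 0 5 (by norm_num))
  obtain ⟨e15a, e15b⟩ := e15

  have e16 := abs_le.1 (he 1 4 (by norm_num))
  obtain ⟨e16a, e16b⟩ := e16

  have e17 := abs_le.1 (he 2 3 (by norm_num))
  obtain ⟨e17a, e17b⟩ := e17

  have e18 := abs_le.1 (he 3 2 (by norm_num))
  obtain ⟨e18a, e18b⟩ := e18

  have e19 := abs_le.1 (he 4 1 (by norm_num))
  obtain ⟨e19a, e19b⟩ := e19

  have e20 := abs_le.1 (he 5 0 (by norm_num))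
  obtain ⟨e20a, e20b⟩ := e20

  rw [h0] at h1
  norm_num at h1 ⊢
  linarith

end

end Pool.Agent.Q290.Late
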